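import Mathlib

set_option autoImplicit false
set_option linter.unusedSectionVars false

namespace Pool.Agent.Results.MP_44310b_lc.BalNotTwoPFA

/-! ## Definitions -/

/-- The two parentheses: `op` is the opening parenthesis `[`, `cl` is the closing one `]`. -/
inductive Paren
  | op
  | cl
deriving DecidableEq

/-- `w` is balanced: it has as many opening as closing parentheses and every initial segment
has at least as many opening as closing ones. -/
def Balanced (w : List Paren) : Prop :=
  w.count Paren.op = w.count Paren.cl ∧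
    ∀ u : List Paren, u <+: w → u.count Paren.cl ≤ u.count Paren.op

/-- The language of balanced parenthesis strings. -/
def LBal : Set (List Paren) := {w | Balanced w}

/-- Symbols on the input tape: the two endmarkers and the letters. -/
inductive TapeSym
  | leftEnd
  | letter (a : Paren)
  | rightEnd

/-- Head moves. -/
inductive Move
  | left
  | stay
  | right
deriving DecidableEq

instance : Fintype Move := ⟨{Move.left, Move.stay, Move.right}, by intro m; cases m <;> simp⟩

/-- A two-way probabilistic finite automaton. The transition probabilities may be arbitrary real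
numbers; automata with rational probabilities are a special case. -/
structure TwoPFA where
  /-- the states -/
  Q : Type
  [fintypeQ : Fintype Q]
  [decEqQ : DecidableEq Q]
  /-- the initial state -/
  start : Q
  /-- the accepting halting states -/
  acc : Set Q
  /-- the rejecting halting states -/
  rej : Set Q
  disj : Disjoint acc rej
  /-- `prob q s q' m` is the probability that in state `q`, scanning the symbol `s`, the next
  state is `q'` and the head move is `m` -/
  prob : Q → TapeSym → Q → Move → ℝ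
  nonneg : ∀ q s q' m, 0 ≤ prob q s q' m
  sum_eq_one : ∀ q s, q ∉ acc → q ∉ rej → ∑ q', ∑ m, prob q s q' m = 1

attribute [instance] TwoPFA.fintypeQ TwoPFA.decEqQ

/-- Content of cell `i` of the tape with input `w`: cell `0` holds the left endmarker, cells
`1, …, |w|` hold the letters of `w`, cell `|w| + 1` holds the right endmarker. -/
def cell (w : List Paren) (i : Fin (w.length + 2)) : TapeSym :=
  if (i : ℕ) = 0 then TapeSym.leftEnd
  else match w[(i : ℕ) - 1]? with
    | some a => TapeSym.letter a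
    | none => TapeSym.rightEnd

/-- New head position on a tape with `n + 2` cells; a head that would leave the tape over one of
the endmarkers stays where it is (so automata that never try to do so are a special case). -/
def moveHead {n : ℕ} (i : Fin (n + 2)) : Move → Fin (n + 2)
  | .left => ⟨(i : ℕ) - 1, by omega⟩
  | .stay => i
  | .right => ⟨min ((i : ℕ) + 1) (n + 1), by omega⟩

open Classical in
/-- One-step transition matrix on configurations (head position, state) for the input `w`;
halting configurations are absorbing. -/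
noncomputable def TwoPFA.stepMatrix (M : TwoPFA) (w : List Paren) :
    Matrix (Fin (w.length + 2) × M.Q) (Fin (w.length + 2) × M.Q) ℝ :=
  fun c c' => if c.2 ∈ M.acc ∨ c.2 ∈ M.rej then (if c' = c then 1 else 0)
    else ∑ m : Move, if moveHead c.1 m = c'.1 then M.prob c.2 (cell w c.1) c'.2 m else 0

open Classical in
/-- Probability that on input `w` the automaton, started in its initial state on the left
endmarker, is in an accepting halting configuration after `t` steps. -/
noncomputable def TwoPFA.accWithin (M : TwoPFA) (w : List Paren) (t : ℕ) : ℝ :=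
  ∑ c : Fin (w.length + 2) × M.Q, if c.2 ∈ M.acc then (M.stepMatrix w ^ t) (0, M.start) c else 0

/-- Probability that the automaton halts in an accepting state on input `w`, with no bound on the
running time: the supremum over `t` of the nondecreasing probabilities `accWithin w t` (it is
also their limit, see `accProb_tendsto` below). -/
noncomputable def TwoPFA.accProb (M : TwoPFA) (w : List Paren) : ℝ := ⨆ t : ℕ, M.accWithin w t

/-- `M` halts in an accepting state with probability at least `1 - ε` on every word of `L` and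
with probability at most `ε` on every word outside `L`. -/
def TwoPFA.AcceptsWithError (M : TwoPFA) (L : Set (List Paren)) (ε : ℝ) : Prop :=
  ∀ w : List Paren, (w ∈ L → 1 - ε ≤ M.accProb w) ∧ (w ∉ L → M.accProb w ≤ ε)

/-- `M` accepts `L` with bounded error: the error is at most some constant `ε < 1 / 2`. -/
def TwoPFA.AcceptsBoundedError (M : TwoPFA) (L : Set (List Paren)) : Prop :=
  ∃ ε : ℝ, ε < 1 / 2 ∧ M.AcceptsWithError L ε

/-! ## Linear algebra -/

section LinAlg
variable {C : Type} [Fintype C] [DecidableEq C]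

/-- minimum principle -/
lemma min_principle [Nonempty C] (A : Matrix C C ℝ) (r : ℝ) (hr : r < 1)
    (hA : ∀ c c', 0 ≤ A c c') (hs : ∀ c, ∑ c', A c c' ≤ r) (u : C → ℝ)
    (hu : ∀ c, (A.mulVec u) c ≤ u c) : ∀ c, 0 ≤ u c := by
  obtain ⟨c0, hc0⟩ := Finite.exists_min u
  by_contra hcon
  push Not at hcon
  obtain ⟨c, hc⟩ := hcon
  have h0 : u c0 < 0 := lt_of_le_of_lt (hc0 c) hc
  have h1 := hu c0
  have h2 : (∑ c', A c0 c') * u c0 ≤ (A.mulVec u) c0 := by
    unfold Matrix.mulVec dotProduct
    rw [Finset.sum_mul]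
    exact Finset.sum_le_sum (fun c' _ => mul_le_mul_of_nonneg_left (hc0 c') (hA c0 c'))
  have h3 : r * u c0 ≤ (∑ c', A c0 c') * u c0 := by nlinarith [hs c0]
  nlinarith

lemma det_pos_of_substoch [Nonempty C] (A : Matrix C C ℝ) (r : ℝ) (hr : r < 1)
    (hA : ∀ c c', 0 ≤ A c c') (hs : ∀ c, ∑ c', A c c' ≤ r) : 0 < (1 - A).det := by
  have hne : ∀ t : ℝ, 0 ≤ t → t ≤ 1 → (1 - t • A).det ≠ 0 := by
    intro t ht0 ht1 hdet
    obtain ⟨v, hv, hv0⟩ := Matrix.exists_mulVec_eq_zero_iff.mpr hdet
    have hr0 : 0 ≤ r := by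
      obtain ⟨c⟩ := (inferInstance : Nonempty C)
      exact le_trans (Finset.sum_nonneg (fun c' _ => hA c c')) (hs c)
    have hA' : ∀ c c', 0 ≤ (t • A) c c' := fun c c' => by
      simp only [Matrix.smul_apply, smul_eq_mul]
      exact mul_nonneg ht0 (hA c c')
    have hs' : ∀ c, ∑ c', (t • A) c c' ≤ r := fun c => by
      simp only [Matrix.smul_apply, smul_eq_mul]
      rw [← Finset.mul_sum]
      have := hs c
      have h0 : 0 ≤ ∑ c', A c c' := Finset.sum_nonneg (fun c' _ => hA c c')
      nlinarith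
    have hv0' : v - (t • A).mulVec v = 0 := by
      rw [Matrix.sub_mulVec, Matrix.one_mulVec] at hv0
      exact hv0
    have hvv : ∀ c, ((t • A).mulVec v) c = v c := fun c => by
      have := congrFun hv0' c
      simp only [Pi.sub_apply, Pi.zero_apply] at this
      linarith
    have h1 := min_principle (t • A) r hr hA' hs' v (fun c => (hvv c).le)
    have h2 := min_principle (t • A) r hr hA' hs' (-v) (fun c => by
      rw [Matrix.mulVec_neg]
      simp only [Pi.neg_apply]
      rw [hvv c])
    apply hv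
    funext c
    have a1 := h1 c
    have a2 := h2 c
    simp only [Pi.neg_apply] at a2
    simp only [Pi.zero_apply]
    linarith
  by_contra hneg
  push Not at hneg
  have hcont : ContinuousOn (fun t : ℝ => (1 - t • A).det) (Set.Icc 0 1) := by
    apply Continuous.continuousOn
    apply Continuous.matrix_det
    exact continuous_const.sub (continuous_id.smul continuous_const)
  have himg := intermediate_value_Icc' (zero_le_one' ℝ) hcont
  have : (0 : ℝ) ∈ Set.Icc ((fun t : ℝ => (1 - t • A).det) 1) ((fun t : ℝ => (1 - t • A).det) 0) := by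
    simp only [one_smul, zero_smul, sub_zero, Matrix.det_one]
    exact ⟨hneg, zero_le_one⟩
  obtain ⟨t, ht, ht0⟩ := himg this
  exact hne t ht.1 ht.2 ht0

/-- Cramer: the value at `c0` of the solution. -/
lemma cramer_val (A : Matrix C C ℝ) (h b : C → ℝ) (hh : ∀ c, h c = A.mulVec h c + b c) (c0 : C) :
    ((1 - A).updateCol c0 b).det = (1 - A).det * h c0 := by
  have hb : (1 - A).mulVec h = b := by
    rw [Matrix.sub_mulVec, Matrix.one_mulVec]
    funext c
    simp only [Pi.sub_apply]
    rw [hh c]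
    ring
  rw [← Matrix.cramer_apply, ← hb, Matrix.cramer_eq_adjugate_mulVec, Matrix.mulVec_mulVec,
    Matrix.adjugate_mul, Matrix.smul_mulVec, Matrix.one_mulVec]
  simp

/-- existence of the solution -/
lemma exists_sol [Nonempty C] (A : Matrix C C ℝ) (r : ℝ) (hr : r < 1)
    (hA : ∀ c c', 0 ≤ A c c') (hs : ∀ c, ∑ c', A c c' ≤ r) (b : C → ℝ) :
    ∃ h : C → ℝ, ∀ c, h c = A.mulVec h c + b c := by
  have hdet := (det_pos_of_substoch A r hr hA hs).ne'
  refine ⟨((1 - A)⁻¹).mulVec b, fun c => ?_⟩
  have : (1 - A).mulVec (((1 - A)⁻¹).mulVec b) = b := by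
    rw [Matrix.mulVec_mulVec, Matrix.mul_nonsing_inv _ (isUnit_iff_ne_zero.mpr hdet),
      Matrix.one_mulVec]
  rw [Matrix.sub_mulVec, Matrix.one_mulVec] at this
  have h2 := congrFun this c
  simp only [Pi.sub_apply] at h2
  linarith

variable {O : Type} [Fintype O] [DecidableEq O]

lemma det_expand (π : C → O → ℝ) (R : C → O → C → ℝ) :
    (Matrix.of fun c c' => ∑ o, π c o * R c o c').det
      = ∑ τ : C → O, (∏ c, π c (τ c)) * (Matrix.of fun c c' => R c (τ c) c').det := by
  have h := (Matrix.detRowAlternating (R := ℝ) (n := C)).toMultilinearMap.map_sum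
    (fun c o => π c o • R c o)
  have e1 : (Matrix.of fun c c' => ∑ o, π c o * R c o c').det
      = (Matrix.detRowAlternating (R := ℝ) (n := C)).toMultilinearMap
        (fun i => ∑ j, π i j • R i j) := by
    show Matrix.det _ = Matrix.det _
    congr 1
    funext c c'
    simp [Finset.sum_apply]
  rw [e1, h]
  refine Finset.sum_congr rfl (fun τ _ => ?_)
  rw [MultilinearMap.map_smul_univ]
  rfl

/-- transition matrix between super-configurations -/
def Am (ρ : C → O → C → ℝ) (π : C → O → ℝ) : Matrix C C ℝ :=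
  Matrix.of fun c c' => ∑ o, π c o * ρ c o c'

/-- one-step acceptance -/
def bv (α : C → O → ℝ) (π : C → O → ℝ) : C → ℝ := fun c => ∑ o, π c o * α c o

def Dm (ρ : C → O → C → ℝ) (π : C → O → ℝ) : ℝ := (1 - Am ρ π).det

def Fm (ρ : C → O → C → ℝ) (α : C → O → ℝ) (c0 : C) (π : C → O → ℝ) : ℝ :=
  ((1 - Am ρ π).updateCol c0 (bv α π)).det

/-- deterministic choice -/
def dirac (τ : C → O) : C → O → ℝ := fun c o => if o = τ c then 1 else 0

lemma Am_dirac (ρ : C → O → C → ℝ) (τ : C → O) (c c' : C) :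
    Am ρ (dirac τ) c c' = ρ c (τ c) c' := by
  simp [Am, dirac]

lemma bv_dirac (α : C → O → ℝ) (τ : C → O) (c : C) :
    bv α (dirac τ) c = α c (τ c) := by
  simp [bv, dirac]

lemma Dm_expand (ρ : C → O → C → ℝ) (π : C → O → ℝ) (hπ : ∀ c, ∑ o, π c o = 1) :
    Dm ρ π = ∑ τ : C → O, (∏ c, π c (τ c)) * Dm ρ (dirac τ) := by
  have h := det_expand π (fun c o c' => (1 : Matrix C C ℝ) c c' - ρ c o c')
  have e1 : Dm ρ π = (Matrix.of fun c c' => ∑ o, π c o * ((1 : Matrix C C ℝ) c c' - ρ c o c')).det := by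
    unfold Dm
    congr 1
    funext c c'
    simp only [Matrix.sub_apply, Am, Matrix.of_apply, mul_sub, Finset.sum_sub_distrib]
    rw [← Finset.sum_mul, hπ, one_mul]
  rw [e1, h]
  refine Finset.sum_congr rfl (fun τ _ => ?_)
  congr 1
  unfold Dm
  congr 1
  funext c c'
  simp [Am_dirac]

lemma Fm_expand (ρ : C → O → C → ℝ) (α : C → O → ℝ) (c0 : C) (π : C → O → ℝ)
    (hπ : ∀ c, ∑ o, π c o = 1) :
    Fm ρ α c0 π = ∑ τ : C → O, (∏ c, π c (τ c)) * Fm ρ α c0 (dirac τ) := by
  have h := det_expand π (fun c o c' => if c' = c0 then α c o else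
    (1 : Matrix C C ℝ) c c' - ρ c o c')
  have e1 : Fm ρ α c0 π = (Matrix.of fun c c' => ∑ o, π c o * (if c' = c0 then α c o else
      (1 : Matrix C C ℝ) c c' - ρ c o c')).det := by
    unfold Fm
    congr 1
    funext c c'
    rw [Matrix.updateCol_apply]
    by_cases hc : c' = c0
    · simp [hc, bv]
    · simp only [hc, if_false, Matrix.of_apply, Matrix.sub_apply, Am, mul_sub,
        Finset.sum_sub_distrib]
      rw [← Finset.sum_mul, hπ, one_mul]
  rw [e1, h]
  refine Finset.sum_congr rfl (fun τ _ => ?_)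
  congr 1
  unfold Fm
  congr 1
  funext c c'
  rw [Matrix.updateCol_apply]
  by_cases hc : c' = c0
  · simp [hc, bv_dirac]
  · simp [hc, Am_dirac]

section props
variable [Nonempty C] (ρ : C → O → C → ℝ) (α : C → O → ℝ) (r : ℝ) (hr : r < 1)
  (hρ : ∀ c o c', 0 ≤ ρ c o c') (hρs : ∀ c o, ∑ c', ρ c o c' ≤ r)
  (hα : ∀ c o, 0 ≤ α c o)

include hρ in
lemma Am_nonneg (π : C → O → ℝ) (hπ0 : ∀ c o, 0 ≤ π c o) (c c' : C) : 0 ≤ Am ρ π c c' :=
  Finset.sum_nonneg (fun o _ => mul_nonneg (hπ0 c o) (hρ c o c'))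

include hρs in
lemma Am_row (π : C → O → ℝ) (hπ0 : ∀ c o, 0 ≤ π c o) (hπ : ∀ c, ∑ o, π c o = 1) (c : C) :
    ∑ c', Am ρ π c c' ≤ r := by
  unfold Am
  simp only [Matrix.of_apply]
  rw [Finset.sum_comm]
  calc ∑ o, ∑ c', π c o * ρ c o c' = ∑ o, π c o * ∑ c', ρ c o c' := by
        simp [Finset.mul_sum]
    _ ≤ ∑ o, π c o * r := Finset.sum_le_sum (fun o _ =>
        mul_le_mul_of_nonneg_left (hρs c o) (hπ0 c o))
    _ = r := by rw [← Finset.sum_mul, hπ, one_mul]

include hr hρ hρs in
lemma Dm_pos (π : C → O → ℝ) (hπ0 : ∀ c o, 0 ≤ π c o) (hπ : ∀ c, ∑ o, π c o = 1) :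
    0 < Dm ρ π :=
  det_pos_of_substoch _ r hr (Am_nonneg ρ hρ π hπ0) (Am_row ρ r hρs π hπ0 hπ)

lemma Fm_eq (c0 : C) (π : C → O → ℝ) (h : C → ℝ)
    (hh : ∀ c, h c = (Am ρ π).mulVec h c + bv α π c) : Fm ρ α c0 π = Dm ρ π * h c0 :=
  cramer_val _ h _ hh c0

include hr hρ hρs in
lemma exists_h (π : C → O → ℝ) (hπ0 : ∀ c o, 0 ≤ π c o) (hπ : ∀ c, ∑ o, π c o = 1) :
    ∃ h : C → ℝ, ∀ c, h c = (Am ρ π).mulVec h c + bv α π c :=
  exists_sol _ r hr (Am_nonneg ρ hρ π hπ0) (Am_row ρ r hρs π hπ0 hπ) _

include hr hρ hρs hα in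
lemma h_nonneg (π : C → O → ℝ) (hπ0 : ∀ c o, 0 ≤ π c o) (hπ : ∀ c, ∑ o, π c o = 1)
    (h : C → ℝ) (hh : ∀ c, h c = (Am ρ π).mulVec h c + bv α π c) (c : C) : 0 ≤ h c := by
  refine min_principle _ r hr (Am_nonneg ρ hρ π hπ0) (Am_row ρ r hρs π hπ0 hπ) h (fun c => ?_) c
  have : 0 ≤ bv α π c := Finset.sum_nonneg (fun o _ => mul_nonneg (hπ0 c o) (hα c o))
  linarith [hh c]

include hr hρ hρs in
lemma h_le (π : C → O → ℝ) (hπ0 : ∀ c o, 0 ≤ π c o) (hπ : ∀ c, ∑ o, π c o = 1)
    (h : C → ℝ) (hh : ∀ c, h c = (Am ρ π).mulVec h c + bv α π c)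
    (y : C → ℝ) (hy : ∀ c, (Am ρ π).mulVec y c + bv α π c ≤ y c) (c : C) : h c ≤ y c := by
  have := min_principle _ r hr (Am_nonneg ρ hρ π hπ0) (Am_row ρ r hρs π hπ0 hπ) (y - h)
    (fun c => by
      rw [Matrix.mulVec_sub]
      simp only [Pi.sub_apply]
      linarith [hh c, hy c]) c
  simp only [Pi.sub_apply] at this
  linarith

include hr hρ hρs hα in
lemma Fm_dirac_nonneg (c0 : C) (τ : C → O) : 0 ≤ Fm ρ α c0 (dirac τ) := by
  have h0 : ∀ c o, 0 ≤ dirac τ c o := fun c o => by unfold dirac; split_ifs <;> norm_num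
  have h1 : ∀ c, ∑ o, dirac τ c o = 1 := fun c => by simp [dirac]
  obtain ⟨h, hh⟩ := exists_h ρ α r hr hρ hρs (dirac τ) h0 h1
  rw [Fm_eq ρ α c0 _ h hh]
  exact mul_nonneg (Dm_pos ρ r hr hρ hρs _ h0 h1).le (h_nonneg ρ α r hr hρ hρs hα _ h0 h1 h hh c0)

end props

end LinAlg


section Engine
variable {I J T : Type} [Fintype I] [DecidableEq I] [Fintype J] [DecidableEq J] [Fintype T]
  [DecidableEq T]

lemma swap_sum (v : J → T → ℝ) (φ : (I → T) → ℝ) (f : (I → J) → ℝ)
    (hf : ∀ κ, f κ = ∑ τ : I → T, (∏ i, v (κ i) (τ i)) * φ τ) (c : I → J → ℝ) :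
    ∑ κ : I → J, (∏ i, c i (κ i)) * f κ
      = ∑ τ : I → T, (∏ i, ∑ j, c i j * v j (τ i)) * φ τ := by
  have h1 : ∀ κ : I → J, (∏ i, c i (κ i)) * f κ
      = ∑ τ : I → T, (∏ i, (c i (κ i) * v (κ i) (τ i))) * φ τ := by
    intro κ
    rw [hf, Finset.mul_sum]
    refine Finset.sum_congr rfl (fun τ _ => ?_)
    rw [Finset.prod_mul_distrib]
    ring
  rw [Finset.sum_congr rfl (fun κ _ => h1 κ), Finset.sum_comm]
  refine Finset.sum_congr rfl (fun τ _ => ?_)
  rw [← Finset.sum_mul]
  congr 1
  rw [Finset.prod_univ_sum]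
  simp [Fintype.piFinset_univ]

lemma engine (v : J → T → ℝ) (φ d : (I → T) → ℝ) (hφ : ∀ τ, 0 ≤ φ τ)
    (f D : (I → J) → ℝ)
    (hf : ∀ κ, f κ = ∑ τ : I → T, (∏ i, v (κ i) (τ i)) * φ τ)
    (hD : ∀ κ, D κ = ∑ τ : I → T, (∏ i, v (κ i) (τ i)) * d τ)
    (hv : ∀ j t, 0 ≤ v j t)
    (c1 c2 c3 : I → J → ℝ)
    (h23 : ∀ i t, ∑ j, c2 i j * v j t = ∑ j, c3 i j * v j t)
    (hc1 : ∀ i j, 0 ≤ c1 i j) (hc12 : ∀ i j, c1 i j ≤ c2 i j) (hc3 : ∀ i j, 0 ≤ c3 i j)
    (lam : I → ℝ) (hlam : ∀ i, 0 ≤ lam i)
    (hl : ∀ i t, lam i * ∑ j, c1 i j * v j t ≤ ∑ j, c2 i j * v j t)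
    (ε η : ℝ) (hε : 0 ≤ ε) (hη : ε < η)
    (good : ∀ κ, (∏ i, c3 i (κ i)) ≠ 0 → η * D κ ≤ f κ)
    (bad : ∀ κ, (∏ i, c1 i (κ i)) ≠ (∏ i, c2 i (κ i)) → f κ ≤ ε * D κ)
    (hD1 : ∀ κ, (∏ i, c1 i (κ i)) ≠ 0 → 0 ≤ D κ)
    (hpos : 0 < ∑ κ : I → J, (∏ i, c1 i (κ i)) * f κ) :
    (∏ i, lam i) * (1 - ε / η) ≤ 1 := by
  have hη0 : 0 < η := lt_of_le_of_lt hε hη
  have e2 := swap_sum v φ f hf c2
  have e3 := swap_sum v φ f hf c3
  have e1 := swap_sum v φ f hf c1
  have g2 := swap_sum v d D hD c2
  have g3 := swap_sum v d D hD c3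
  have ef : ∑ κ : I → J, (∏ i, c2 i (κ i)) * f κ = ∑ κ : I → J, (∏ i, c3 i (κ i)) * f κ := by
    rw [e2, e3]
    refine Finset.sum_congr rfl (fun τ _ => ?_)
    congr 1
    exact Finset.prod_congr rfl (fun i _ => h23 i (τ i))
  have eD : ∑ κ : I → J, (∏ i, c2 i (κ i)) * D κ = ∑ κ : I → J, (∏ i, c3 i (κ i)) * D κ := by
    rw [g2, g3]
    refine Finset.sum_congr rfl (fun τ _ => ?_)
    congr 1
    exact Finset.prod_congr rfl (fun i _ => h23 i (τ i))
  have s1 : η * ∑ κ : I → J, (∏ i, c3 i (κ i)) * D κ ≤ ∑ κ : I → J, (∏ i, c3 i (κ i)) * f κ := by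
    rw [Finset.mul_sum]
    refine Finset.sum_le_sum (fun κ _ => ?_)
    by_cases h0 : (∏ i, c3 i (κ i)) = 0
    · rw [h0]; simp
    · have := good κ h0
      have hp : 0 ≤ ∏ i, c3 i (κ i) := Finset.prod_nonneg (fun i _ => hc3 i (κ i))
      nlinarith [mul_le_mul_of_nonneg_left this hp]
  have s2 : ∑ κ : I → J, (∏ i, c2 i (κ i)) * f κ - ∑ κ : I → J, (∏ i, c1 i (κ i)) * f κ
      ≤ ε * (∑ κ : I → J, (∏ i, c2 i (κ i)) * D κ - ∑ κ : I → J, (∏ i, c1 i (κ i)) * D κ) := by
    rw [← Finset.sum_sub_distrib, ← Finset.sum_sub_distrib, Finset.mul_sum]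
    refine Finset.sum_le_sum (fun κ _ => ?_)
    have hle : ∏ i, c1 i (κ i) ≤ ∏ i, c2 i (κ i) :=
      Finset.prod_le_prod (fun i _ => hc1 i (κ i)) (fun i _ => hc12 i (κ i))
    by_cases h0 : (∏ i, c1 i (κ i)) = (∏ i, c2 i (κ i))
    · rw [h0]; simp
    · have := bad κ h0
      nlinarith [mul_le_mul_of_nonneg_left this (sub_nonneg.mpr hle)]
  have s3 : 0 ≤ ∑ κ : I → J, (∏ i, c1 i (κ i)) * D κ := by
    refine Finset.sum_nonneg (fun κ _ => ?_)
    by_cases h0 : (∏ i, c1 i (κ i)) = 0
    · rw [h0]; simp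
    · exact mul_nonneg (Finset.prod_nonneg (fun i _ => hc1 i (κ i))) (hD1 κ h0)
  have s4 : (∏ i, lam i) * ∑ κ : I → J, (∏ i, c1 i (κ i)) * f κ
      ≤ ∑ κ : I → J, (∏ i, c2 i (κ i)) * f κ := by
    rw [e1, e2, Finset.mul_sum]
    refine Finset.sum_le_sum (fun τ _ => ?_)
    rw [← mul_assoc, ← Finset.prod_mul_distrib]
    refine mul_le_mul_of_nonneg_right ?_ (hφ τ)
    exact Finset.prod_le_prod (fun i _ => mul_nonneg (hlam i)
      (Finset.sum_nonneg (fun j _ => mul_nonneg (hc1 i j) (hv j _)))) (fun i _ => hl i (τ i))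
  set F1 := ∑ κ : I → J, (∏ i, c1 i (κ i)) * f κ with hF1
  set F2 := ∑ κ : I → J, (∏ i, c2 i (κ i)) * f κ with hF2
  set F3 := ∑ κ : I → J, (∏ i, c3 i (κ i)) * f κ with hF3
  set D1 := ∑ κ : I → J, (∏ i, c1 i (κ i)) * D κ with hD1'
  set D2 := ∑ κ : I → J, (∏ i, c2 i (κ i)) * D κ with hD2
  set D3 := ∑ κ : I → J, (∏ i, c3 i (κ i)) * D κ with hD3
  have s5 : ε * D2 ≤ ε / η * F2 := by
    rw [eD, ef, div_mul_eq_mul_div, le_div_iff₀ hη0]
    nlinarith
  have s6 : F2 * (1 - ε / η) ≤ F1 := by nlinarith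
  have hrho : 0 ≤ 1 - ε / η := by
    rw [sub_nonneg, div_le_one hη0]
    exact hη.le
  have s7 : ((∏ i, lam i) * (1 - ε / η)) * F1 ≤ 1 * F1 := by
    have := mul_le_mul_of_nonneg_right s4 hrho
    nlinarith
  exact le_of_mul_le_mul_right s7 hpos

end Engine


def Move.shift : Move → ℤ
  | .left => -1
  | .stay => 0
  | .right => 1

structure Kern (Q S : Type) [Fintype Q] where
  acc : Set Q
  rej : Set Q
  p : Q → S → Q → Move → ℝ
  nonneg : ∀ q s q' m, 0 ≤ p q s q' m
  sum_one : ∀ q s, q ∉ acc → q ∉ rej → ∑ q', ∑ m, p q s q' m = 1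

section Exit
variable {Q S : Type} [Fintype Q] [DecidableEq Q]

open Classical in
/-- probability to leave the block of cells `0, …, n-1` within `t` steps with outcome `o`:
`some (false, q)` = to the left in state `q`, `some (true, q)` = to the right in state `q`,
`none` = accepting inside. -/
noncomputable def E (K : Kern Q S) (n : ℕ) (X : ℤ → S) :
    ℕ → ℤ → Q → Option (Bool × Q) → ℝ
  | 0, j, q, o => if j < 0 then (if o = some (false, q) then 1 else 0)
     else if (n : ℤ) ≤ j then (if o = some (true, q) then 1 else 0)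
     else if q ∈ K.acc then (if o = none then 1 else 0) else 0
  | t + 1, j, q, o => if j < 0 then (if o = some (false, q) then 1 else 0)
     else if (n : ℤ) ≤ j then (if o = some (true, q) then 1 else 0)
     else if q ∈ K.acc then (if o = none then 1 else 0)
     else if q ∈ K.rej then 0
     else ∑ q', ∑ m : Move, K.p q (X j) q' m * E K n X t (j + m.shift) q' o

variable (K : Kern Q S) (n : ℕ) (X : ℤ → S)

lemma E_left (t : ℕ) (j : ℤ) (hj : j < 0) (q : Q) (o : Option (Bool × Q)) :
    E K n X t j q o = if o = some (false, q) then 1 else 0 := by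
  cases t <;> simp [E, hj]

lemma E_right (t : ℕ) (j : ℤ) (hj : (n : ℤ) ≤ j) (q : Q) (o : Option (Bool × Q)) :
    E K n X t j q o = if o = some (true, q) then 1 else 0 := by
  have h0 : ¬ j < 0 := by omega
  cases t <;> simp [E, hj, h0]

lemma E_acc (t : ℕ) (j : ℤ) (hj0 : 0 ≤ j) (hj : j < n) (q : Q) (hq : q ∈ K.acc)
    (o : Option (Bool × Q)) :
    E K n X t j q o = if o = none then 1 else 0 := by
  have h0 : ¬ j < 0 := by omega
  have h1 : ¬ (n : ℤ) ≤ j := by omega
  cases t <;> simp [E, h0, h1, hq]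

lemma E_rej (t : ℕ) (j : ℤ) (hj0 : 0 ≤ j) (hj : j < n) (q : Q) (hq : q ∉ K.acc) (hr : q ∈ K.rej)
    (o : Option (Bool × Q)) :
    E K n X t j q o = 0 := by
  have h0 : ¬ j < 0 := by omega
  have h1 : ¬ (n : ℤ) ≤ j := by omega
  cases t <;> simp [E, h0, h1, hq, hr]

lemma E_zero (j : ℤ) (hj0 : 0 ≤ j) (hj : j < n) (q : Q) (hq : q ∉ K.acc)
    (o : Option (Bool × Q)) :
    E K n X 0 j q o = 0 := by
  have h0 : ¬ j < 0 := by omega
  have h1 : ¬ (n : ℤ) ≤ j := by omega
  simp [E, h0, h1, hq]

lemma E_succ (t : ℕ) (j : ℤ) (hj0 : 0 ≤ j) (hj : j < n) (q : Q) (hq : q ∉ K.acc)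
    (hr : q ∉ K.rej) (o : Option (Bool × Q)) :
    E K n X (t + 1) j q o
      = ∑ q', ∑ m : Move, K.p q (X j) q' m * E K n X t (j + m.shift) q' o := by
  have h0 : ¬ j < 0 := by omega
  have h1 : ¬ (n : ℤ) ≤ j := by omega
  simp [E, h0, h1, hq, hr]

/-- case analysis -/
lemma E_cases {P : ℤ → Q → Prop} (j : ℤ) (q : Q)
    (h1 : j < 0 → P j q) (h2 : (n : ℤ) ≤ j → P j q)
    (h3 : 0 ≤ j → j < n → q ∈ K.acc → P j q)
    (h4 : 0 ≤ j → j < n → q ∉ K.acc → q ∈ K.rej → P j q)
    (h5 : 0 ≤ j → j < n → q ∉ K.acc → q ∉ K.rej → P j q) : P j q := by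
  by_cases a1 : j < 0
  · exact h1 a1
  by_cases a2 : (n : ℤ) ≤ j
  · exact h2 a2
  by_cases a3 : q ∈ K.acc
  · exact h3 (by omega) (by omega) a3
  by_cases a4 : q ∈ K.rej
  · exact h4 (by omega) (by omega) a3 a4
  · exact h5 (by omega) (by omega) a3 a4

lemma E_nonneg (t : ℕ) : ∀ (j : ℤ) (q : Q) (o : Option (Bool × Q)), 0 ≤ E K n X t j q o := by
  induction t with
  | zero =>
    intro j q o
    simp only [E]
    split_ifs <;> norm_num
  | succ t ih =>
    intro j q o
    refine E_cases K n (P := fun j q => 0 ≤ E K n X (t + 1) j q o) j q ?_ ?_ ?_ ?_ ?_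
    · intro h
      rw [E_left K n X _ _ h]; split_ifs <;> norm_num
    · intro h
      rw [E_right K n X _ _ h]; split_ifs <;> norm_num
    · intro h h' hq
      rw [E_acc K n X _ _ h h' q hq]; split_ifs <;> norm_num
    · intro h h' hq hr
      rw [E_rej K n X _ _ h h' q hq hr]
    · intro h h' hq hr
      rw [E_succ K n X _ _ h h' q hq hr]
      exact Finset.sum_nonneg (fun q' _ => Finset.sum_nonneg (fun m _ =>
        mul_nonneg (K.nonneg _ _ _ _) (ih _ _ _)))

lemma E_sum (t : ℕ) : ∀ (j : ℤ) (q : Q), ∑ o, E K n X t j q o ≤ 1 := by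
  induction t with
  | zero =>
    intro j q
    refine E_cases K n (P := fun j q => ∑ o, E K n X 0 j q o ≤ 1) j q ?_ ?_ ?_ ?_ ?_
    · intro h
      simp [E_left K n X _ _ h]
    · intro h
      simp [E_right K n X _ _ h]
    · intro h h' hq
      simp [E_acc K n X _ _ h h' q hq]
    · intro h h' hq hr
      simp [E_rej K n X _ _ h h' q hq hr]
    · intro h h' hq hr
      simp [E_zero K n X _ h h' q hq]
  | succ t ih =>
    intro j q
    refine E_cases K n (P := fun j q => ∑ o, E K n X (t + 1) j q o ≤ 1) j q ?_ ?_ ?_ ?_ ?_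
    · intro h
      simp [E_left K n X _ _ h]
    · intro h
      simp [E_right K n X _ _ h]
    · intro h h' hq
      simp [E_acc K n X _ _ h h' q hq]
    · intro h h' hq hr
      simp [E_rej K n X _ _ h h' q hq hr]
    · intro h h' hq hr
      calc ∑ o, E K n X (t + 1) j q o
          = ∑ o, ∑ q', ∑ m : Move, K.p q (X j) q' m * E K n X t (j + m.shift) q' o :=
            Finset.sum_congr rfl (fun o _ => E_succ K n X _ _ h h' q hq hr o)
        _ = ∑ q', ∑ m : Move, K.p q (X j) q' m * ∑ o, E K n X t (j + m.shift) q' o := by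
            rw [Finset.sum_comm]
            refine Finset.sum_congr rfl (fun q' _ => ?_)
            rw [Finset.sum_comm]
            refine Finset.sum_congr rfl (fun m _ => ?_)
            rw [Finset.mul_sum]
        _ ≤ ∑ q', ∑ m : Move, K.p q (X j) q' m * 1 :=
            Finset.sum_le_sum (fun q' _ => Finset.sum_le_sum (fun m _ =>
              mul_le_mul_of_nonneg_left (ih _ _) (K.nonneg _ _ _ _)))
        _ = 1 := by simp only [mul_one]; exact K.sum_one q _ hq hr

lemma E_le_one (t : ℕ) (j : ℤ) (q : Q) (o : Option (Bool × Q)) : E K n X t j q o ≤ 1 :=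
  le_trans (Finset.single_le_sum (f := fun o => E K n X t j q o)
    (fun o _ => E_nonneg K n X t j q o) (Finset.mem_univ o)) (E_sum K n X t j q)

lemma E_mono_succ (t : ℕ) : ∀ (j : ℤ) (q : Q) (o : Option (Bool × Q)),
    E K n X t j q o ≤ E K n X (t + 1) j q o := by
  induction t with
  | zero =>
    intro j q o
    refine E_cases K n (P := fun j q => E K n X 0 j q o ≤ E K n X (0 + 1) j q o) j q ?_ ?_ ?_ ?_ ?_
    · intro h
      rw [E_left K n X _ _ h, E_left K n X _ _ h]
    · intro h
      rw [E_right K n X _ _ h, E_right K n X _ _ h]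
    · intro h h' hq
      rw [E_acc K n X _ _ h h' q hq, E_acc K n X _ _ h h' q hq]
    · intro h h' hq hr
      rw [E_rej K n X _ _ h h' q hq hr, E_rej K n X _ _ h h' q hq hr]
    · intro h h' hq hr
      rw [E_zero K n X _ h h' q hq]
      exact E_nonneg _ _ _ _ _ _ _
  | succ t ih =>
    intro j q o
    refine E_cases K n (P := fun j q => E K n X (t + 1) j q o ≤ E K n X (t + 1 + 1) j q o) j q
      ?_ ?_ ?_ ?_ ?_
    · intro h
      rw [E_left K n X _ _ h, E_left K n X _ _ h]
    · intro h
      rw [E_right K n X _ _ h, E_right K n X _ _ h]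
    · intro h h' hq
      rw [E_acc K n X _ _ h h' q hq, E_acc K n X _ _ h h' q hq]
    · intro h h' hq hr
      rw [E_rej K n X _ _ h h' q hq hr, E_rej K n X _ _ h h' q hq hr]
    · intro h h' hq hr
      rw [E_succ K n X _ _ h h' q hq hr, E_succ K n X _ _ h h' q hq hr]
      exact Finset.sum_le_sum (fun q' _ => Finset.sum_le_sum (fun m _ =>
        mul_le_mul_of_nonneg_left (ih _ _ _) (K.nonneg _ _ _ _)))

lemma E_mono (j : ℤ) (q : Q) (o : Option (Bool × Q)) : Monotone (fun t => E K n X t j q o) :=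
  monotone_nat_of_le_succ (fun t => E_mono_succ K n X t j q o)

/-- exit probabilities -/
noncomputable def Sx (j : ℤ) (q : Q) (o : Option (Bool × Q)) : ℝ := ⨆ t, E K n X t j q o

lemma E_bdd (j : ℤ) (q : Q) (o : Option (Bool × Q)) :
    BddAbove (Set.range (fun t => E K n X t j q o)) :=
  ⟨1, by rintro _ ⟨t, rfl⟩; exact E_le_one K n X t j q o⟩

lemma Sx_tendsto (j : ℤ) (q : Q) (o : Option (Bool × Q)) :
    Filter.Tendsto (fun t => E K n X t j q o) Filter.atTop (nhds (Sx K n X j q o)) :=
  tendsto_atTop_ciSup (E_mono K n X j q o) (E_bdd K n X j q o)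

lemma E_le_Sx (t : ℕ) (j : ℤ) (q : Q) (o : Option (Bool × Q)) :
    E K n X t j q o ≤ Sx K n X j q o := le_ciSup (E_bdd K n X j q o) t

lemma Sx_nonneg (j : ℤ) (q : Q) (o : Option (Bool × Q)) : 0 ≤ Sx K n X j q o :=
  le_trans (E_nonneg K n X 0 j q o) (E_le_Sx K n X 0 j q o)

lemma Sx_left (j : ℤ) (hj : j < 0) (q : Q) (o : Option (Bool × Q)) :
    Sx K n X j q o = if o = some (false, q) then 1 else 0 := by
  unfold Sx
  simp [E_left K n X _ _ hj]

lemma Sx_right (j : ℤ) (hj : (n : ℤ) ≤ j) (q : Q) (o : Option (Bool × Q)) :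
    Sx K n X j q o = if o = some (true, q) then 1 else 0 := by
  unfold Sx
  simp [E_right K n X _ _ hj]

lemma Sx_acc (j : ℤ) (hj0 : 0 ≤ j) (hj : j < n) (q : Q) (hq : q ∈ K.acc)
    (o : Option (Bool × Q)) :
    Sx K n X j q o = if o = none then 1 else 0 := by
  unfold Sx
  simp [E_acc K n X _ _ hj0 hj q hq]

lemma Sx_rej (j : ℤ) (hj0 : 0 ≤ j) (hj : j < n) (q : Q) (hq : q ∉ K.acc) (hr : q ∈ K.rej)
    (o : Option (Bool × Q)) :
    Sx K n X j q o = 0 := by
  unfold Sx
  simp [E_rej K n X _ _ hj0 hj q hq hr]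

lemma Sx_step (j : ℤ) (hj0 : 0 ≤ j) (hj : j < n) (q : Q) (hq : q ∉ K.acc)
    (hr : q ∉ K.rej) (o : Option (Bool × Q)) :
    Sx K n X j q o
      = ∑ q', ∑ m : Move, K.p q (X j) q' m * Sx K n X (j + m.shift) q' o := by
  have h1 := (Sx_tendsto K n X j q o).comp (Filter.tendsto_add_atTop_nat 1)
  have h2 : Filter.Tendsto (fun t => E K n X (t + 1) j q o) Filter.atTop
      (nhds (∑ q', ∑ m : Move, K.p q (X j) q' m * Sx K n X (j + m.shift) q' o)) := by
    simp only [E_succ K n X _ _ hj0 hj q hq hr]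
    refine tendsto_finsetSum _ (fun q' _ => tendsto_finsetSum _ (fun m _ => ?_))
    exact (Sx_tendsto K n X _ _ _).const_mul _
  exact tendsto_nhds_unique h1 h2

lemma Sx_sum (j : ℤ) (q : Q) : ∑ o, Sx K n X j q o ≤ 1 := by
  have h : Filter.Tendsto (fun t => ∑ o, E K n X t j q o) Filter.atTop
      (nhds (∑ o, Sx K n X j q o)) :=
    tendsto_finsetSum _ (fun o _ => Sx_tendsto K n X j q o)
  exact le_of_tendsto' h (fun t => E_sum K n X t j q)

/-- the exit distribution completed by the remaining mass -/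
noncomputable def Px (j : ℤ) (q : Q) : Option (Option (Bool × Q)) → ℝ
  | some o => Sx K n X j q o
  | none => 1 - ∑ o, Sx K n X j q o

lemma Px_nonneg (j : ℤ) (q : Q) (o : Option (Option (Bool × Q))) : 0 ≤ Px K n X j q o := by
  cases o with
  | none => simp only [Px]; linarith [Sx_sum K n X j q]
  | some o => exact Sx_nonneg K n X j q o

lemma Px_sum (j : ℤ) (q : Q) : ∑ o, Px K n X j q o = 1 := by
  rw [Fintype.sum_option]
  simp [Px]

end Exit

/-! ## Gluing of blocks -/

section Glue
variable {Q S : Type} [Fintype Q] [DecidableEq Q]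

/-- the cell where the head is when it enters a block of length `n` through side `p.1` -/
def portpos (n : ℕ) (s : Bool) : ℤ := if s then (n : ℤ) - 1 else 0

/-- value at the block entered when leaving block `i` through exit `e` -/
noncomputable def nbv {B : ℕ} (h : Fin B × (Bool × Q) → ℝ) (i : ℕ) (e : Bool × Q) : ℝ :=
  if e.1 = true then (if hh : i + 1 < B then h (⟨i + 1, hh⟩, (false, e.2)) else 0)
  else (if hh : 0 < i ∧ i - 1 < B then h (⟨i - 1, hh.2⟩, (true, e.2)) else 0)

/-- routing between blocks, killed with probability `δ` -/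
noncomputable def rho (B : ℕ) (δ : ℝ) (c : Fin B × (Bool × Q)) :
    Option (Option (Bool × Q)) → Fin B × (Bool × Q) → ℝ
  | some (some e), c' => if c'.2 = (!e.1, e.2) ∧
      (if e.1 = true then (c'.1 : ℕ) = c.1 + 1 else (c'.1 : ℕ) + 1 = c.1) then 1 - δ else 0
  | some none, _ => 0
  | none, _ => 0

/-- acceptance, killed with probability `δ` -/
noncomputable def alp (B : ℕ) (δ : ℝ) (_c : Fin B × (Bool × Q)) : Option (Option (Bool × Q)) → ℝ
  | some none => 1 - δ
  | some (some _) => 0
  | none => 0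

lemma rho_nonneg (B : ℕ) (δ : ℝ) (hδ : δ ≤ 1) (c : Fin B × (Bool × Q)) (o) (c' : Fin B × (Bool × Q)) :
    0 ≤ rho B δ c o c' := by
  rcases o with _ | _ | e
  · simp [rho]
  · simp [rho]
  · simp only [rho]
    split_ifs <;> linarith

lemma alp_nonneg (B : ℕ) (δ : ℝ) (hδ : δ ≤ 1) (c : Fin B × (Bool × Q)) (o) :
    0 ≤ alp B δ c o := by
  rcases o with _ | _ | e <;> simp [alp, hδ]

lemma rho_sum (B : ℕ) (δ : ℝ) (c : Fin B × (Bool × Q)) (e : Bool × Q)
    (h : Fin B × (Bool × Q) → ℝ) :
    ∑ c', rho B δ c (some (some e)) c' * h c' = (1 - δ) * nbv h c.1 e := by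
  obtain ⟨s, q⟩ := e
  cases s with
  | true =>
    by_cases hh : (c.1 : ℕ) + 1 < B
    · rw [Finset.sum_eq_single (⟨(c.1 : ℕ) + 1, hh⟩, (false, q))]
      · simp [rho, nbv, hh]
      · rintro ⟨i', p'⟩ _ hne
        simp only [rho]
        rw [if_neg]
        · simp
        · rintro ⟨h1, h2⟩
          apply hne
          simp only [if_true] at h2
          simp only [Bool.not_true] at h1
          rw [h1]
          congr 1
          exact Fin.ext h2
      · intro hn; exact absurd (Finset.mem_univ _) hn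
    · simp only [nbv, hh, if_true, dite_false, mul_zero]
      refine Finset.sum_eq_zero (fun c' _ => ?_)
      simp only [rho]
      rw [if_neg]
      · simp
      · rintro ⟨h1, h2⟩
        simp only [if_true] at h2
        have := c'.1.2
        omega
  | false =>
    by_cases hh : 0 < (c.1 : ℕ) ∧ (c.1 : ℕ) - 1 < B
    · rw [Finset.sum_eq_single (⟨(c.1 : ℕ) - 1, hh.2⟩, (true, q))]
      · have : (c.1 : ℕ) - 1 + 1 = c.1 := by omega
        simp [rho, nbv, hh, this]
      · rintro ⟨i', p'⟩ _ hne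
        simp only [rho]
        rw [if_neg]
        · simp
        · rintro ⟨h1, h2⟩
          apply hne
          simp only [Bool.false_eq_true, if_false] at h2
          simp only [Bool.not_false] at h1
          rw [h1]
          congr 1
          apply Fin.ext
          simp only
          omega
      · intro hn; exact absurd (Finset.mem_univ _) hn
    · have : nbv h c.1 (false, q) = 0 := by
        unfold nbv
        rw [if_neg (by simp), dif_neg hh]
      rw [this, mul_zero]
      refine Finset.sum_eq_zero (fun c' _ => ?_)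
      simp only [rho]
      rw [if_neg]
      · simp
      · rintro ⟨h1, h2⟩
        simp only [Bool.false_eq_true, if_false] at h2
        have := c'.1.2
        have := c.1.2
        omega

lemma rho_row (B : ℕ) (δ : ℝ) (hδ : δ ≤ 1) (c : Fin B × (Bool × Q)) (o) :
    ∑ c', rho B δ c o c' ≤ 1 - δ := by
  rcases o with _ | _ | e
  · simp only [rho, Finset.sum_const_zero]; linarith
  · simp only [rho, Finset.sum_const_zero]; linarith
  · have h := rho_sum B δ c e (fun _ => 1)
    simp only [mul_one] at h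
    rw [h]
    have : nbv (fun _ : Fin B × (Bool × Q) => (1 : ℝ)) c.1 e ≤ 1 := by
      unfold nbv
      split_ifs <;> norm_num
    nlinarith

variable (K : Kern Q S) (B : ℕ) (len : ℕ → ℕ) (blk : ℕ → ℤ → S)

/-- rows of the super-chain -/
noncomputable def piB (c : Fin B × (Bool × Q)) (o : Option (Option (Bool × Q))) : ℝ :=
  Px K (len c.1) (blk c.1) (portpos (len c.1) c.2.1) c.2.2 o

/-- harmonic interpolation inside the blocks -/
noncomputable def Hf (h : Fin B × (Bool × Q) → ℝ) (i : ℕ) (j : ℤ) (q : Q) : ℝ :=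
  ∑ e, Sx K (len i) (blk i) j q (some e) * nbv h i e + Sx K (len i) (blk i) j q none

lemma super_eq (δ : ℝ) (h : Fin B × (Bool × Q) → ℝ) (c : Fin B × (Bool × Q)) :
    (Am (rho B δ) (piB K B len blk)).mulVec h c + bv (alp B δ) (piB K B len blk) c
      = (1 - δ) * Hf K B len blk h c.1 (portpos (len c.1) c.2.1) c.2.2 := by
  have h1 : (Am (rho B δ) (piB K B len blk)).mulVec h c
      = ∑ o, piB K B len blk c o * ∑ c', rho B δ c o c' * h c' := by
    unfold Matrix.mulVec dotProduct Am
    simp only [Matrix.of_apply, Finset.sum_mul, Finset.mul_sum]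
    rw [Finset.sum_comm]
    refine Finset.sum_congr rfl (fun o _ => Finset.sum_congr rfl (fun c' _ => ?_))
    ring
  rw [h1]
  unfold bv
  rw [Fintype.sum_option, Fintype.sum_option, Fintype.sum_option, Fintype.sum_option]
  simp only [rho_sum, alp, mul_zero, Finset.sum_const_zero]
  simp only [rho, zero_mul, Finset.sum_const_zero, mul_zero, zero_add, add_zero]
  unfold Hf
  rw [mul_add, Finset.mul_sum]
  congr 1
  · refine Finset.sum_congr rfl (fun e _ => ?_)
    simp only [piB, Px]
    ring
  · simp only [piB, Px]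
    ring

lemma nbv_nonneg (h : Fin B × (Bool × Q) → ℝ) (hh : ∀ c, 0 ≤ h c) (i : ℕ) (e : Bool × Q) :
    0 ≤ nbv h i e := by
  unfold nbv
  split_ifs
  · exact hh _
  · exact le_refl _
  · exact hh _
  · exact le_refl _

lemma Hf_nonneg (h : Fin B × (Bool × Q) → ℝ) (hh : ∀ c, 0 ≤ h c) (i : ℕ) (j : ℤ) (q : Q) :
    0 ≤ Hf K B len blk h i j q := by
  unfold Hf
  refine add_nonneg (Finset.sum_nonneg (fun e _ => mul_nonneg (Sx_nonneg _ _ _ _ _ _)
    (nbv_nonneg B h hh i e))) (Sx_nonneg _ _ _ _ _ _)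

lemma Hf_left (h : Fin B × (Bool × Q) → ℝ) (i : ℕ) (j : ℤ) (hj : j < 0) (q : Q) :
    Hf K B len blk h i j q = nbv h i (false, q) := by
  unfold Hf
  simp [Sx_left K _ _ j hj]

lemma Hf_right (h : Fin B × (Bool × Q) → ℝ) (i : ℕ) (j : ℤ) (hj : (len i : ℤ) ≤ j) (q : Q) :
    Hf K B len blk h i j q = nbv h i (true, q) := by
  unfold Hf
  simp [Sx_right K _ _ j hj]

lemma Hf_acc (h : Fin B × (Bool × Q) → ℝ) (i : ℕ) (j : ℤ) (hj0 : 0 ≤ j) (hj : j < len i) (q : Q)
    (hq : q ∈ K.acc) : Hf K B len blk h i j q = 1 := by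
  unfold Hf
  simp [Sx_acc K _ _ j hj0 hj q hq]

lemma Hf_step (h : Fin B × (Bool × Q) → ℝ) (i : ℕ) (j : ℤ) (hj0 : 0 ≤ j) (hj : j < len i) (q : Q)
    (hq : q ∉ K.acc) (hr : q ∉ K.rej) :
    Hf K B len blk h i j q
      = ∑ q', ∑ m : Move, K.p q (blk i j) q' m * Hf K B len blk h i (j + m.shift) q' := by
  unfold Hf
  simp only [Sx_step K _ _ j hj0 hj q hq hr]
  simp only [mul_add, Finset.sum_add_distrib, Finset.mul_sum, Finset.sum_mul]
  congr 1
  rw [Finset.sum_comm]
  refine Finset.sum_congr rfl (fun q' _ => ?_)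
  rw [Finset.sum_comm]
  refine Finset.sum_congr rfl (fun m _ => Finset.sum_congr rfl (fun e _ => ?_))
  ring

variable (W : ℤ → S) (off : ℕ → ℕ)

lemma off_mono (n : ℕ) (hoff : ∀ i, i < n → off (i + 1) = off i + len i) :
    ∀ i, i ≤ n → off i ≤ off n := by
  induction n with
  | zero => intro i hi; rw [Nat.le_zero.mp hi]
  | succ n ih =>
    intro i hi
    rcases Nat.lt_or_ge i (n + 1) with h | h
    · have h1 := ih (fun i hi => hoff i (by omega)) i (by omega)
      have h2 := hoff n (by omega)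
      omega
    · rw [show i = n + 1 by omega]

/-- lower bound for the super-chain value -/
lemma lower (hoff0 : off 0 = 0) (hoff : ∀ i, i < B → off (i + 1) = off i + len i)
    (hlen : ∀ i, i < B → 0 < len i)
    (hW : ∀ i, i < B → ∀ j : ℤ, 0 ≤ j → j < len i → W ((off i : ℤ) + j) = blk i j)
    (hL : ∀ q q', q ∉ K.acc → q ∉ K.rej → K.p q (W 0) q' Move.left = 0)
    (hR : ∀ q q', q ∉ K.acc → q ∉ K.rej → K.p q (W ((off B : ℤ) - 1)) q' Move.right = 0)
    (δ : ℝ) (hδ0 : 0 < δ) (hδ1 : δ < 1)
    (h : Fin B × (Bool × Q) → ℝ) (hh : ∀ c, 0 ≤ h c)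
    (heq : ∀ c, h c = (Am (rho B δ) (piB K B len blk)).mulVec h c
      + bv (alp B δ) (piB K B len blk) c) (t : ℕ) :
    ∀ i, i < B → ∀ j : ℤ, 0 ≤ j → j < len i → ∀ q : Q,
      (1 - δ) ^ t * E K (off B) W t ((off i : ℤ) + j) q none ≤ Hf K B len blk h i j q := by
  have hoffB : ∀ i, i < B → off i + len i ≤ off B := by
    intro i hi
    rw [← hoff i hi]
    exact off_mono len off B hoff (i + 1) hi
  have hport : ∀ c : Fin B × (Bool × Q), h c
      = (1 - δ) * Hf K B len blk h c.1 (portpos (len c.1) c.2.1) c.2.2 := by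
    intro c
    rw [heq c, super_eq]
  induction t with
  | zero =>
    intro i hi j hj0 hj q
    have hb := hoffB i hi
    rw [pow_zero, one_mul]
    by_cases hq : q ∈ K.acc
    · rw [Hf_acc K B len blk h i j hj0 hj q hq]
      exact E_le_one _ _ _ _ _ _ _
    · rw [E_zero K (off B) W _ (by omega) (by omega) q hq]
      exact Hf_nonneg K B len blk h hh i j q
  | succ t ih =>
    intro i hi j hj0 hj q
    have hb := hoffB i hi
    have hpow : 0 ≤ (1 - δ) ^ t := pow_nonneg (by linarith) t
    have hpow1 : (1 - δ) ^ (t + 1) ≤ 1 := pow_le_one₀ (by linarith) (by linarith)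
    by_cases hq : q ∈ K.acc
    · rw [Hf_acc K B len blk h i j hj0 hj q hq]
      have h1 := E_le_one K (off B) W (t + 1) ((off i : ℤ) + j) q none
      have h2 := E_nonneg K (off B) W (t + 1) ((off i : ℤ) + j) q none
      nlinarith
    by_cases hr : q ∈ K.rej
    · rw [E_rej K (off B) W _ _ (by omega) (by omega) q hq hr, mul_zero]
      exact Hf_nonneg K B len blk h hh i j q
    rw [E_succ K (off B) W _ _ (by omega) (by omega) q hq hr,
      Hf_step K B len blk h i j hj0 hj q hq hr, Finset.mul_sum]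
    refine Finset.sum_le_sum (fun q' _ => ?_)
    rw [Finset.mul_sum]
    refine Finset.sum_le_sum (fun m _ => ?_)
    have hWj : W ((off i : ℤ) + j) = blk i j := hW i hi j hj0 hj
    have hp := K.nonneg q (blk i j) q' m
    have hE := E_nonneg K (off B) W t ((off i : ℤ) + j + m.shift) q' none
    rw [hWj]
    -- it suffices to compare the values
    have key : K.p q (blk i j) q' m = 0 ∨
        (1 - δ) ^ (t + 1) * E K (off B) W t ((off i : ℤ) + j + m.shift) q' none
          ≤ Hf K B len blk h i (j + m.shift) q' := by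
      by_cases c1 : j + m.shift < 0
      · -- leaving to the left
        have hm : m = Move.left ∧ j = 0 := by
          cases m <;> simp only [Move.shift] at c1
          · exact ⟨rfl, by omega⟩
          · omega
          · omega
        obtain ⟨rfl, rfl⟩ := hm
        rcases Nat.eq_zero_or_pos i with hi0 | hi0
        · left
          subst hi0
          rw [← hWj, hoff0]
          simpa using hL q q' hq hr
        · right
          rw [Hf_left K B len blk h i _ c1]
          have hi1 : i - 1 < B := by omega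
          have e1 : nbv h i (false, q') = h (⟨i - 1, hi1⟩, (true, q')) := by
            unfold nbv
            rw [if_neg (by simp), dif_pos ⟨hi0, hi1⟩]
          rw [e1, hport]
          have hl1 := hlen (i - 1) hi1
          have ho1 := hoff (i - 1) hi1
          rw [Nat.sub_add_cancel hi0] at ho1
          have := ih (i - 1) hi1 ((len (i - 1) : ℤ) - 1) (by omega) (by omega) q'
          simp only [portpos, if_true]
          have e2 : (off i : ℤ) + 0 + Move.left.shift = (off (i - 1) : ℤ) + ((len (i - 1) : ℤ) - 1) := by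
            simp only [Move.shift]
            rw [ho1]; push_cast; ring
          rw [e2, pow_succ]
          nlinarith
      by_cases c2 : (len i : ℤ) ≤ j + m.shift
      · have hm : m = Move.right ∧ j = (len i : ℤ) - 1 := by
          cases m <;> simp only [Move.shift] at c2
          · omega
          · omega
          · exact ⟨rfl, by omega⟩
        obtain ⟨rfl, hj1⟩ := hm
        by_cases hi0 : i + 1 < B
        · right
          rw [Hf_right K B len blk h i _ c2]
          have e1 : nbv h i (true, q') = h (⟨i + 1, hi0⟩, (false, q')) := by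
            unfold nbv
            rw [if_pos rfl, dif_pos hi0]
          rw [e1, hport]
          have hl1 := hlen (i + 1) hi0
          have ho1 := hoff i hi
          have := ih (i + 1) hi0 0 (le_refl _) (by omega) q'
          simp only [portpos]
          have e2 : (off i : ℤ) + j + Move.right.shift = (off (i + 1) : ℤ) + 0 := by
            simp only [Move.shift]
            rw [ho1, hj1]; push_cast; ring
          rw [e2, pow_succ]
          simp only [Bool.false_eq_true, if_false]
          nlinarith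
        · left
          have hiB : B = i + 1 := by omega
          rw [← hWj]
          have : (off i : ℤ) + j = (off B : ℤ) - 1 := by
            rw [hiB, hoff i hi, hj1]; push_cast; ring
          rw [this]
          exact hR q q' hq hr
      · right
        have := ih i hi (j + m.shift) (by omega) (by omega) q'
        rw [← add_assoc] at this
        have h3 : (1 - δ) ^ (t + 1) * E K (off B) W t ((off i : ℤ) + j + m.shift) q' none
            ≤ (1 - δ) ^ t * E K (off B) W t ((off i : ℤ) + j + m.shift) q' none := by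
          apply mul_le_mul_of_nonneg_right _ hE
          rw [pow_succ]
          nlinarith
        linarith
    rcases key with h0 | h0
    · rw [h0]; simp
    · have := mul_le_mul_of_nonneg_left h0 hp
      nlinarith

/-- upper bound: the exact acceptance value is superharmonic for the super-chain -/
lemma upper (hoff0 : off 0 = 0) (hoff : ∀ i, i < B → off (i + 1) = off i + len i)
    (hlen : ∀ i, i < B → 0 < len i)
    (hW : ∀ i, i < B → ∀ j : ℤ, 0 ≤ j → j < len i → W ((off i : ℤ) + j) = blk i j)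
    (y : Fin B × (Bool × Q) → ℝ)
    (hy : ∀ c, y c = Sx K (off B) W ((off c.1 : ℤ) + portpos (len c.1) c.2.1) c.2.2 none)
    (i : ℕ) (hi : i < B) (t : ℕ) :
    ∀ j : ℤ, -1 ≤ j → j ≤ len i → ∀ q : Q,
      ∑ e, E K (len i) (blk i) t j q (some e) * nbv y i e + E K (len i) (blk i) t j q none
        ≤ Sx K (off B) W ((off i : ℤ) + j) q none := by
  have hoffB : ∀ i, i < B → off i + len i ≤ off B := by
    intro i hi
    rw [← hoff i hi]
    exact off_mono len off B hoff (i + 1) hi
  have hleft : ∀ j : ℤ, -1 ≤ j → j < 0 → ∀ q : Q, nbv y i (false, q)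
      ≤ Sx K (off B) W ((off i : ℤ) + j) q none := by
    intro j hj0 hj1 q
    have hj : j = -1 := by omega
    unfold nbv
    rw [if_neg (by simp)]
    split_ifs with hh
    · rw [hy]
      have ho1 := hoff (i - 1) hh.2
      rw [Nat.sub_add_cancel hh.1] at ho1
      simp only [portpos, if_true]
      rw [hj, ho1]
      apply le_of_eq
      congr 1
      push_cast
      ring
    · exact Sx_nonneg _ _ _ _ _ _
  have hright : ∀ j : ℤ, (len i : ℤ) ≤ j → j ≤ len i → ∀ q : Q, nbv y i (true, q)
      ≤ Sx K (off B) W ((off i : ℤ) + j) q none := by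
    intro j hj0 hj1 q
    have hj : j = len i := by omega
    unfold nbv
    rw [if_pos rfl]
    split_ifs with hh
    · rw [hy]
      have ho1 := hoff i hi
      simp only [portpos, Bool.false_eq_true, if_false]
      rw [hj, ho1]
      apply le_of_eq
      congr 1
    · exact Sx_nonneg _ _ _ _ _ _
  have hb := hoffB i hi
  induction t with
  | zero =>
    intro j hj0 hj1 q
    refine E_cases K (len i) (P := fun j q => -1 ≤ j → j ≤ len i →
      ∑ e, E K (len i) (blk i) 0 j q (some e) * nbv y i e + E K (len i) (blk i) 0 j q none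
        ≤ Sx K (off B) W ((off i : ℤ) + j) q none) j q ?_ ?_ ?_ ?_ ?_ hj0 hj1
    · intro h a1 a2
      simp only [E_left K _ _ _ _ h]
      simpa using hleft j a1 h q
    · intro h a1 a2
      simp only [E_right K _ _ _ _ h]
      simpa using hright j h a2 q
    · intro h h' hq a1 a2
      simp only [E_acc K _ _ _ _ h h' q hq]
      rw [Sx_acc K _ _ _ (by omega) (by omega) q hq]
      simp
    · intro h h' hq hr a1 a2
      simp only [E_rej K _ _ _ _ h h' q hq hr]
      simpa using Sx_nonneg _ _ _ _ _ _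
    · intro h h' hq hr a1 a2
      simp only [E_zero K _ _ _ h h' q hq]
      simpa using Sx_nonneg _ _ _ _ _ _
  | succ t ih =>
    intro j hj0 hj1 q
    refine E_cases K (len i) (P := fun j q => -1 ≤ j → j ≤ len i →
      ∑ e, E K (len i) (blk i) (t + 1) j q (some e) * nbv y i e
        + E K (len i) (blk i) (t + 1) j q none
        ≤ Sx K (off B) W ((off i : ℤ) + j) q none) j q ?_ ?_ ?_ ?_ ?_ hj0 hj1
    · intro h a1 a2
      simp only [E_left K _ _ _ _ h]
      simpa using hleft j a1 h q
    · intro h a1 a2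
      simp only [E_right K _ _ _ _ h]
      simpa using hright j h a2 q
    · intro h h' hq a1 a2
      simp only [E_acc K _ _ _ _ h h' q hq]
      rw [Sx_acc K _ _ _ (by omega) (by omega) q hq]
      simp
    · intro h h' hq hr a1 a2
      simp only [E_rej K _ _ _ _ h h' q hq hr]
      simpa using Sx_nonneg _ _ _ _ _ _
    · intro h h' hq hr a1 a2
      simp only [E_succ K _ _ _ _ h h' q hq hr]
      rw [Sx_step K (off B) W _ (by omega) (by omega) q hq hr]
      rw [hW i hi j h h']
      calc ∑ e, (∑ q', ∑ m : Move, K.p q (blk i j) q' m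
              * E K (len i) (blk i) t (j + m.shift) q' (some e)) * nbv y i e
            + ∑ q', ∑ m : Move, K.p q (blk i j) q' m
              * E K (len i) (blk i) t (j + m.shift) q' none
          = ∑ q', ∑ m : Move, K.p q (blk i j) q' m *
              (∑ e, E K (len i) (blk i) t (j + m.shift) q' (some e) * nbv y i e
                + E K (len i) (blk i) t (j + m.shift) q' none) := by
            simp only [mul_add, Finset.sum_add_distrib, Finset.mul_sum, Finset.sum_mul]
            congr 1
            rw [Finset.sum_comm]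
            refine Finset.sum_congr rfl (fun q' _ => ?_)
            rw [Finset.sum_comm]
            refine Finset.sum_congr rfl (fun m _ => Finset.sum_congr rfl (fun e _ => ?_))
            ring
        _ ≤ ∑ q', ∑ m : Move, K.p q (blk i j) q' m *
              Sx K (off B) W ((off i : ℤ) + j + m.shift) q' none := by
            refine Finset.sum_le_sum (fun q' _ => Finset.sum_le_sum (fun m _ => ?_))
            refine mul_le_mul_of_nonneg_left ?_ (K.nonneg _ _ _ _)
            have hm : -1 ≤ j + m.shift ∧ j + m.shift ≤ len i := by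
              cases m <;> simp only [Move.shift] <;> omega
            have := ih (j + m.shift) hm.1 hm.2 q'
            rw [← add_assoc] at this
            exact this

lemma upper' (hoff0 : off 0 = 0) (hoff : ∀ i, i < B → off (i + 1) = off i + len i)
    (hlen : ∀ i, i < B → 0 < len i)
    (hW : ∀ i, i < B → ∀ j : ℤ, 0 ≤ j → j < len i → W ((off i : ℤ) + j) = blk i j)
    (y : Fin B × (Bool × Q) → ℝ)
    (hy : ∀ c, y c = Sx K (off B) W ((off c.1 : ℤ) + portpos (len c.1) c.2.1) c.2.2 none)
    (i : ℕ) (hi : i < B) (j : ℤ) (hj0 : 0 ≤ j) (hj : j < len i) (q : Q) :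
    Hf K B len blk y i j q ≤ Sx K (off B) W ((off i : ℤ) + j) q none := by
  have h1 : Filter.Tendsto (fun t => ∑ e, E K (len i) (blk i) t j q (some e) * nbv y i e
      + E K (len i) (blk i) t j q none) Filter.atTop (nhds (Hf K B len blk y i j q)) := by
    unfold Hf
    exact (tendsto_finsetSum _ (fun e _ => (Sx_tendsto K _ _ _ _ _).mul_const _)).add
      (Sx_tendsto K _ _ _ _ _)
  exact le_of_tendsto' h1 (fun t => upper K B len blk W off hoff0 hoff hlen hW y hy i hi t j
    (by omega) (by omega) q)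

lemma super_bounds (hB : 0 < B) (hoff0 : off 0 = 0)
    (hoff : ∀ i, i < B → off (i + 1) = off i + len i)
    (hlen : ∀ i, i < B → 0 < len i)
    (hW : ∀ i, i < B → ∀ j : ℤ, 0 ≤ j → j < len i → W ((off i : ℤ) + j) = blk i j)
    (hL : ∀ q q', q ∉ K.acc → q ∉ K.rej → K.p q (W 0) q' Move.left = 0)
    (hR : ∀ q q', q ∉ K.acc → q ∉ K.rej → K.p q (W ((off B : ℤ) - 1)) q' Move.right = 0)
    (δ : ℝ) (hδ0 : 0 < δ) (hδ1 : δ < 1) (q0 : Q) :
    0 < Dm (rho B δ) (piB K B len blk) ∧
    (∀ t, Dm (rho B δ) (piB K B len blk) * ((1 - δ) ^ (t + 1) * E K (off B) W t 0 q0 none)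
      ≤ Fm (rho B δ) (alp B δ) (⟨0, hB⟩, (false, q0)) (piB K B len blk)) ∧
    Fm (rho B δ) (alp B δ) (⟨0, hB⟩, (false, q0)) (piB K B len blk)
      ≤ Dm (rho B δ) (piB K B len blk) * Sx K (off B) W 0 q0 none := by
  haveI : Nonempty (Fin B × (Bool × Q)) := ⟨(⟨0, hB⟩, (false, q0))⟩
  have hr : 1 - δ < 1 := by linarith
  have hρ := rho_nonneg (Q := Q) B δ hδ1.le
  have hρs := rho_row (Q := Q) B δ hδ1.le
  have hα := alp_nonneg (Q := Q) B δ hδ1.le
  have hπ0 : ∀ c o, 0 ≤ piB K B len blk c o := fun c o => Px_nonneg _ _ _ _ _ _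
  have hπ : ∀ c, ∑ o, piB K B len blk c o = 1 := fun c => Px_sum _ _ _ _ _
  have hD := Dm_pos (rho B δ) (1 - δ) hr hρ hρs (piB K B len blk) hπ0 hπ
  obtain ⟨h, hh⟩ := exists_h (rho B δ) (alp B δ) (1 - δ) hr hρ hρs (piB K B len blk) hπ0 hπ
  have hh0 := h_nonneg (rho B δ) (alp B δ) (1 - δ) hr hρ hρs hα (piB K B len blk) hπ0 hπ h hh
  have hF := Fm_eq (rho B δ) (alp B δ) (⟨0, hB⟩, (false, q0)) (piB K B len blk) h hh
  refine ⟨hD, ?_, ?_⟩
  · intro t
    rw [hF]
    refine mul_le_mul_of_nonneg_left ?_ hD.le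
    have h1 := lower K B len blk W off hoff0 hoff hlen hW hL hR δ hδ0 hδ1 h hh0 hh t 0 hB 0
      (le_refl _) (by have := hlen 0 hB; omega) q0
    have h2 := hh (⟨0, hB⟩, (false, q0))
    rw [super_eq] at h2
    simp only [portpos, Bool.false_eq_true, if_false] at h2
    rw [h2, pow_succ]
    rw [hoff0] at h1
    simp only [Nat.cast_zero, add_zero] at h1
    have h3 : 0 ≤ 1 - δ := by linarith
    nlinarith
  · rw [hF]
    refine mul_le_mul_of_nonneg_left ?_ hD.le
    let y : Fin B × (Bool × Q) → ℝ := fun c =>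
      Sx K (off B) W ((off c.1 : ℤ) + portpos (len c.1) c.2.1) c.2.2 none
    have h1 := h_le (rho B δ) (alp B δ) (1 - δ) hr hρ hρs (piB K B len blk) hπ0 hπ h hh y
      (fun c => by
        rw [super_eq]
        have hl := hlen c.1 c.1.2
        have h2 := upper' K B len blk W off hoff0 hoff hlen hW y (fun c => rfl) c.1 c.1.2
          (portpos (len c.1) c.2.1) (by unfold portpos; split_ifs <;> omega)
          (by unfold portpos; split_ifs <;> omega) c.2.2
        have h3 : 0 ≤ Hf K B len blk y c.1 (portpos (len c.1) c.2.1) c.2.2 :=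
          Hf_nonneg K B len blk y (fun c => Sx_nonneg _ _ _ _ _ _) _ _ _
        show (1 - δ) * _ ≤ Sx K (off B) W ((off c.1 : ℤ) + portpos (len c.1) c.2.1) c.2.2 none
        nlinarith) (⟨0, hB⟩, (false, q0))
    have h4 : y (⟨0, hB⟩, (false, q0)) = Sx K (off B) W 0 q0 none := by
      show Sx K (off B) W ((off 0 : ℤ) + portpos (len 0) false) q0 none = _
      rw [hoff0]
      simp [portpos]
    rw [h4] at h1
    exact h1

end Glue

section Lists
variable {S : Type}

/-- letter function of a list -/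
def lf (d : S) (l : List S) (j : ℤ) : S := l.getD j.toNat d

/-- offset of block number `i` -/
def offL (Bs : List (List S)) (i : ℕ) : ℕ := (Bs.take i).flatten.length

lemma offL_zero (Bs : List (List S)) : offL Bs 0 = 0 := by simp [offL]

lemma getD_eq (Bs : List (List S)) (i : ℕ) (hi : i < Bs.length) : Bs.getD i [] = Bs[i] := by
  simp [List.getD_eq_getElem?_getD, hi]

lemma offL_succ (Bs : List (List S)) (i : ℕ) (hi : i < Bs.length) :
    offL Bs (i + 1) = offL Bs i + (Bs.getD i []).length := by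
  unfold offL
  rw [List.take_succ_eq_append_getElem hi, getD_eq Bs i hi, List.flatten_append,
    List.length_append]
  congr 1
  simp

lemma offL_len (Bs : List (List S)) : offL Bs Bs.length = Bs.flatten.length := by
  simp [offL]

lemma lf_flatten (d : S) (Bs : List (List S)) (i : ℕ) (hi : i < Bs.length) (j : ℤ) (hj0 : 0 ≤ j)
    (hj : j < (Bs.getD i []).length) :
    lf d Bs.flatten ((offL Bs i : ℤ) + j) = lf d (Bs.getD i []) j := by
  obtain ⟨n, rfl⟩ := Int.eq_ofNat_of_zero_le hj0
  have hn : n < (Bs.getD i []).length := by exact_mod_cast hj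
  have h1 : Bs.flatten = (Bs.take i).flatten ++ (Bs.getD i [] ++ (Bs.drop (i + 1)).flatten) := by
    conv_lhs => rw [← List.take_append_drop i Bs]
    rw [List.flatten_append, List.drop_eq_getElem_cons hi, List.flatten_cons, getD_eq Bs i hi]
  unfold lf
  have h2 : ((offL Bs i : ℤ) + (n : ℤ)).toNat = offL Bs i + n := by omega
  rw [h2, Int.toNat_natCast, h1, List.getD_append_right _ _ _ _ (by unfold offL; omega)]
  have h3 : offL Bs i + n - (Bs.take i).flatten.length = n := by unfold offL; omega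
  rw [h3, List.getD_append _ _ _ _ hn]

end Lists

section Core
variable {Q S : Type} [Fintype Q] [DecidableEq Q]

/-- tensor of the exit rows of a block word -/
noncomputable def vW (K : Kern Q S) (d : S) (x : List S)
    (τ : Bool × Q → Option (Option (Bool × Q))) : ℝ :=
  ∏ p : Bool × Q, Px K x.length (lf d x) (portpos x.length p.1) p.2 (τ p)

/-- acceptance probability on a tape -/
noncomputable def accp (K : Kern Q S) (d : S) (q0 : Q) (T : List S) : ℝ :=
  Sx K T.length (lf d T) 0 q0 none

variable (K : Kern Q S) (d : S) (q0 : Q) {J : Type} (word : J → List S)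

lemma vW_nonneg (x : List S) (τ) : 0 ≤ vW K d x τ :=
  Finset.prod_nonneg (fun _ _ => Px_nonneg _ _ _ _ _ _)

/-- list of blocks -/
def BsK {B : ℕ} (κ : Fin B → J) : List (List S) := List.ofFn (fun i => word (κ i))

lemma BsK_length {B : ℕ} (κ : Fin B → J) : (BsK word κ).length = B := by simp [BsK]

lemma BsK_getD {B : ℕ} (κ : Fin B → J) (i : Fin B) :
    (BsK word κ).getD i [] = word (κ i) := by
  rw [getD_eq _ _ (by rw [BsK_length]; exact i.2)]
  simp [BsK]

noncomputable def piK {B : ℕ} (κ : Fin B → J) :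
    Fin B × (Bool × Q) → Option (Option (Bool × Q)) → ℝ :=
  piB K B (fun i => ((BsK word κ).getD i []).length) (fun i => lf d ((BsK word κ).getD i []))

lemma piK_apply {B : ℕ} (κ : Fin B → J) (c : Fin B × (Bool × Q)) (o) :
    piK K d word κ c o = Px K (word (κ c.1)).length (lf d (word (κ c.1)))
      (portpos (word (κ c.1)).length c.2.1) c.2.2 o := by
  unfold piK piB
  simp only [BsK_getD word κ c.1]

lemma piK_sum {B : ℕ} (κ : Fin B → J) (c : Fin B × (Bool × Q)) :
    ∑ o, piK K d word κ c o = 1 := Px_sum _ _ _ _ _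

noncomputable def phiF (B : ℕ) (hB : 0 < B) (δ : ℝ)
    (τ : Fin B → (Bool × Q → Option (Option (Bool × Q)))) : ℝ :=
  Fm (rho B δ) (alp B δ) (⟨0, hB⟩, (false, q0)) (dirac (fun c => τ c.1 c.2))

noncomputable def phiD (B : ℕ) (δ : ℝ)
    (τ : Fin B → (Bool × Q → Option (Option (Bool × Q)))) : ℝ :=
  Dm (rho B δ) (dirac (fun c => τ c.1 c.2))

lemma prod_curry {B : ℕ} (κ : Fin B → J) (τ : Fin B × (Bool × Q) → Option (Option (Bool × Q))) :
    ∏ c, piK K d word κ c (τ c) = ∏ i, vW K d (word (κ i)) (fun p => τ (i, p)) := by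
  rw [Fintype.prod_prod_type]
  refine Finset.prod_congr rfl (fun i _ => ?_)
  unfold vW
  refine Finset.prod_congr rfl (fun p _ => ?_)
  rw [piK_apply]

lemma F_expand {B : ℕ} (hB : 0 < B) (δ : ℝ) (κ : Fin B → J) :
    Fm (rho B δ) (alp B δ) (⟨0, hB⟩, (false, q0)) (piK K d word κ)
      = ∑ τ : Fin B → (Bool × Q → Option (Option (Bool × Q))),
        (∏ i, vW K d (word (κ i)) (τ i)) * phiF q0 B hB δ τ := by
  rw [Fm_expand _ _ _ _ (piK_sum K d word κ)]
  refine Fintype.sum_equiv (Equiv.curry (Fin B) (Bool × Q) (Option (Option (Bool × Q)))) _ _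
    (fun τ => ?_)
  rw [prod_curry]
  rfl

lemma D_expand {B : ℕ} (δ : ℝ) (κ : Fin B → J) :
    Dm (rho B δ) (piK K d word κ)
      = ∑ τ : Fin B → (Bool × Q → Option (Option (Bool × Q))),
        (∏ i, vW K d (word (κ i)) (τ i)) * phiD B δ τ := by
  rw [Dm_expand _ _ (piK_sum K d word κ)]
  refine Fintype.sum_equiv (Equiv.curry (Fin B) (Bool × Q) (Option (Option (Bool × Q)))) _ _
    (fun τ => ?_)
  rw [prod_curry]
  rfl

lemma phiF_nonneg (B : ℕ) (hB : 0 < B) (δ : ℝ) (hδ0 : 0 < δ) (hδ1 : δ < 1)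
    (τ : Fin B → (Bool × Q → Option (Option (Bool × Q)))) : 0 ≤ phiF q0 B hB δ τ := by
  have : Nonempty (Fin B × (Bool × Q)) := ⟨(⟨0, hB⟩, (false, q0))⟩
  exact Fm_dirac_nonneg (rho B δ) (alp B δ) (1 - δ) (by linarith) (rho_nonneg B δ hδ1.le)
    (rho_row B δ hδ1.le) (alp_nonneg B δ hδ1.le) _ _

lemma word_bounds {B : ℕ} (hB : 0 < B) (δ : ℝ) (hδ0 : 0 < δ) (hδ1 : δ < 1) (κ : Fin B → J)
    (hne : ∀ j, word j ≠ [])
    (hL : ∀ q q', q ∉ K.acc → q ∉ K.rej →
      K.p q (lf d (BsK word κ).flatten 0) q' Move.left = 0)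
    (hR : ∀ q q', q ∉ K.acc → q ∉ K.rej →
      K.p q (lf d (BsK word κ).flatten (((BsK word κ).flatten.length : ℤ) - 1)) q' Move.right = 0) :
    0 < Dm (rho B δ) (piK K d word κ) ∧
    (∀ t, Dm (rho B δ) (piK K d word κ) * ((1 - δ) ^ (t + 1) *
      E K (BsK word κ).flatten.length (lf d (BsK word κ).flatten) t 0 q0 none)
      ≤ Fm (rho B δ) (alp B δ) (⟨0, hB⟩, (false, q0)) (piK K d word κ)) ∧
    Fm (rho B δ) (alp B δ) (⟨0, hB⟩, (false, q0)) (piK K d word κ)
      ≤ Dm (rho B δ) (piK K d word κ) * accp K d q0 (BsK word κ).flatten := by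
  have hlenB := BsK_length word κ
  have hoffB : offL (BsK word κ) B = (BsK word κ).flatten.length := by
    have := offL_len (BsK word κ)
    rwa [hlenB] at this
  have h := super_bounds K B (fun i => ((BsK word κ).getD i []).length)
    (fun i => lf d ((BsK word κ).getD i [])) (lf d (BsK word κ).flatten) (offL (BsK word κ)) hB
    (offL_zero _) (fun i hi => offL_succ _ _ (by rw [hlenB]; exact hi))
    (fun i hi => by
      have := BsK_getD word κ ⟨i, hi⟩
      simp only at this
      show 0 < ((BsK word κ).getD i []).length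
      rw [this]
      exact List.length_pos_iff.mpr (hne _))
    (fun i hi j hj0 hj => lf_flatten d _ i (by rw [hlenB]; exact hi) j hj0 hj)
    hL (by rw [hoffB]; exact hR) δ hδ0 hδ1 q0
  rw [hoffB] at h
  exact h

end Core

section Weights
variable {M : Type} [Fintype M]

/-- weights on block words -/
noncomputable def wt {m : ℕ} (e : Option M → ℝ) (i : Fin (m + 2)) : Option (Option (Option M)) → ℝ
  | none => if (i : ℕ) = 0 then 1 else 0
  | some none => if (i : ℕ) = m + 1 then 1 else 0
  | some (some x) => if (i : ℕ) = 0 ∨ (i : ℕ) = m + 1 then 0 else e x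

lemma wt_sum {m : ℕ} (e : Option M → ℝ) (i : Fin (m + 2)) (w : Option (Option (Option M)) → ℝ) :
    ∑ j, wt e i j * w j = if (i : ℕ) = 0 then w none else if (i : ℕ) = m + 1 then w (some none)
      else ∑ x, e x * w (some (some x)) := by
  rw [Fintype.sum_option, Fintype.sum_option]
  by_cases h0 : (i : ℕ) = 0
  · simp [wt, h0]
  · by_cases h1 : (i : ℕ) = m + 1
    · simp [wt, h1]
    · simp [wt, h0, h1]

lemma wt_nonneg {m : ℕ} (e : Option M → ℝ) (he : ∀ x, 0 ≤ e x) (i : Fin (m + 2)) (j) :
    0 ≤ wt e i j := by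
  rcases j with _ | _ | x
  · simp only [wt]; split_ifs <;> norm_num
  · simp only [wt]; split_ifs <;> norm_num
  · simp only [wt]; split_ifs
    · exact le_refl _
    · exact he x

lemma wt_mono {m : ℕ} (e e' : Option M → ℝ) (he : ∀ x, e x ≤ e' x) (i : Fin (m + 2)) (j) :
    wt e i j ≤ wt e' i j := by
  rcases j with _ | _ | x
  · simp only [wt]; exact le_refl _
  · simp only [wt]; exact le_refl _
  · simp only [wt]; split_ifs
    · exact le_refl _
    · exact he x

/-- the sequence of block words with middle part `xs` -/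
def mkK {m : ℕ} (xs : Fin m → Option M) (i : Fin (m + 2)) : Option (Option (Option M)) :=
  if h0 : (i : ℕ) = 0 then none
  else if h1 : (i : ℕ) = m + 1 then some none
  else some (some (xs ⟨(i : ℕ) - 1, by have := i.2; omega⟩))

lemma mkK_zero {m : ℕ} (xs : Fin m → Option M) : mkK xs 0 = none := by simp [mkK]

lemma mkK_last {m : ℕ} (xs : Fin m → Option M) : mkK xs (Fin.last m).succ = some none := by
  simp [mkK]

lemma mkK_mid {m : ℕ} (xs : Fin m → Option M) (i : Fin m) :
    mkK xs i.castSucc.succ = some (some (xs i)) := by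
  have h := i.2
  have h2 : ¬ (i : ℕ) = m := by omega
  simp [mkK, h2]

lemma wt_prod_mk {m : ℕ} (e : Option M → ℝ) (xs : Fin m → Option M) :
    ∏ i, wt e i (mkK xs i) = ∏ i, e (xs i) := by
  rw [Fin.prod_univ_succ, Fin.prod_univ_castSucc]
  rw [mkK_zero, mkK_last]
  have h1 : wt e (0 : Fin (m + 2)) none = 1 := by simp [wt]
  have h2 : wt e (Fin.last m).succ (some none) = 1 := by simp [wt]
  rw [h1, h2, one_mul, mul_one]
  refine Finset.prod_congr rfl (fun i _ => ?_)
  rw [mkK_mid]
  have h := i.2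
  have h3 : ¬ (i : ℕ) = m := by omega
  simp [wt, h3]

lemma wt_support {m : ℕ} (e : Option M → ℝ) (κ : Fin (m + 2) → Option (Option (Option M)))
    (h : ∏ i, wt e i (κ i) ≠ 0) : ∃ xs : Fin m → Option M, κ = mkK xs := by
  rw [Finset.prod_ne_zero_iff] at h
  have hmid : ∀ i : Fin (m + 2), ∃ x : Option M, ¬ ((i : ℕ) = 0) → ¬ ((i : ℕ) = m + 1) →
      κ i = some (some x) := by
    intro i
    have hi := h i (Finset.mem_univ i)
    rcases hk : κ i with _ | _ | x
    · rw [hk] at hi
      refine ⟨none, fun h0 _ => ?_⟩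
      simp [wt, h0] at hi
    · rw [hk] at hi
      refine ⟨none, fun _ h1 => ?_⟩
      simp [wt, h1] at hi
    · exact ⟨x, fun _ _ => rfl⟩
  choose xs hxs using hmid
  refine ⟨fun i => xs ⟨(i : ℕ) + 1, by omega⟩, ?_⟩
  funext i
  have hi := h i (Finset.mem_univ i)
  unfold mkK
  split_ifs with h0 h1
  · rcases hk : κ i with _ | _ | x
    · rfl
    · rw [hk] at hi
      exfalso
      apply hi
      simp [wt, h0]
    · rw [hk] at hi
      exfalso
      apply hi
      simp [wt, h0]
  · rcases hk : κ i with _ | _ | x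
    · rw [hk] at hi
      exfalso
      apply hi
      simp [wt, h0]
    · rfl
    · rw [hk] at hi
      exfalso
      apply hi
      simp [wt, h1]
  · rw [hxs i h0 h1]
    congr 3
    apply Fin.ext
    simp only
    omega

end Weights

section Core2
variable {Q S : Type} [Fintype Q] [DecidableEq Q]

def midW (a b : S) (k : ℕ) : List S := List.replicate (k + 1) b ++ List.replicate (k + 1) a

def tapeW (l r a b : S) (P : ℕ) (ks : List ℕ) : List S :=
  (l :: List.replicate P a) ++ ((ks.map (midW a b)).flatten ++ (List.replicate P b ++ [r]))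

/-- selecting the words -/
lemma selection {T : Type} [Fintype T] (v : ℕ → T → ℝ) :
    ∃ (n : ℕ) (K' : Finset ℕ) (ks : ℕ) (γ : ℕ → ℝ), K'.Nonempty ∧ (∀ k ∈ K', k < n) ∧ n ≤ ks ∧
      (∀ t, v ks t = ∑ k ∈ K', γ k * v k t) ∧ ∀ k ∈ K', ∀ t, 0 < v k t → 0 < v ks t := by
  classical
  obtain ⟨y, hy⟩ := Finite.exists_infinite_fiber (fun k : ℕ => ({t | 0 < v k t} : Set T))
  set Ks : Set ℕ := (fun k : ℕ => ({t | 0 < v k t} : Set T)) ⁻¹' {y} with hKs
  have hinf : Ks.Infinite := Set.infinite_coe_iff.mp hy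
  let U : ℕ →o Submodule ℝ (T → ℝ) :=
    ⟨fun n => Submodule.span ℝ (v '' (Ks ∩ {k | k < n})), fun a b hab =>
      Submodule.span_mono (Set.image_mono (Set.inter_subset_inter_right _
        (fun k (hk : k < a) => lt_of_lt_of_le hk hab)))⟩
  obtain ⟨n0, hn0⟩ := monotone_stabilizes_iff_noetherian.mpr
    (inferInstance : IsNoetherian ℝ (T → ℝ)) U
  obtain ⟨k1, hk1⟩ := hinf.nonempty
  obtain ⟨kst, hkst, hlt⟩ := hinf.exists_gt (max n0 (k1 + 1))
  have hlt0 : n0 < kst := lt_of_le_of_lt (le_max_left _ _) hlt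
  have hlt1 : k1 + 1 < kst := lt_of_le_of_lt (le_max_right _ _) hlt
  set n1 := max n0 (k1 + 1) with hn1
  have hmem : v kst ∈ U (kst + 1) :=
    Submodule.subset_span ⟨kst, ⟨hkst, Nat.lt_succ_self _⟩, rfl⟩
  have hmem1 : v kst ∈ U n1 := by
    rw [← hn0 (kst + 1) (by omega)] at hmem
    rw [← hn0 n1 (le_max_left _ _)]
    exact hmem
  let K' : Finset ℕ := (Finset.range n1).filter (fun k => k ∈ Ks)
  have hK' : (K' : Set ℕ) = Ks ∩ {k | k < n1} := by
    ext k
    simp [K', and_comm]
  have hmem2 : v kst ∈ Submodule.span ℝ (v '' (K' : Set ℕ)) := by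
    rw [hK']; exact hmem1
  rw [Submodule.mem_span_image_finset_iff_exists_fun'] at hmem2
  obtain ⟨γ, hγ⟩ := hmem2
  refine ⟨n1, K', kst, γ, ⟨k1, ?_⟩, ?_, hlt.le, ?_, ?_⟩
  · simp only [K', Finset.mem_filter, Finset.mem_range]
    exact ⟨by omega, hk1⟩
  · intro k hk
    simp only [K', Finset.mem_filter, Finset.mem_range] at hk
    exact hk.1
  · intro t
    rw [← hγ]
    simp [Finset.sum_apply]
  · intro k hk t ht
    simp only [K', Finset.mem_filter, Finset.mem_range] at hk
    have e1 : ({t | 0 < v k t} : Set T) = y := hk.2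
    have e2 : ({t | 0 < v kst t} : Set T) = y := hkst
    have : t ∈ ({t | 0 < v kst t} : Set T) := by
      rw [e2, ← e1]; exact ht
    exact this

/-- comparison constant -/
lemma comparison {T : Type} [Fintype T] (a b : T → ℝ) (ha : ∀ t, 0 ≤ a t) (hb : ∀ t, 0 ≤ b t)
    (hab : ∀ t, 0 < a t → 0 < b t) : ∃ c > 0, ∀ t, c * a t ≤ b t := by
  have h : ∀ s : Finset T, ∃ c > 0, ∀ t ∈ s, c * a t ≤ b t := by
    classical
    intro s
    induction s using Finset.induction_on with
    | empty => exact ⟨1, one_pos, by simp⟩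
    | insert x s hx ih =>
      obtain ⟨c, hc, hcs⟩ := ih
      rcases (ha x).eq_or_lt with h0 | h0
      · refine ⟨c, hc, fun t ht => ?_⟩
        rcases Finset.mem_insert.mp ht with rfl | ht
        · rw [← h0]; simpa using hb t
        · exact hcs t ht
      · have hbx := hab x h0
        refine ⟨min c (b x / a x), lt_min hc (div_pos hbx h0), fun t ht => ?_⟩
        rcases Finset.mem_insert.mp ht with rfl | ht
        · calc min c (b t / a t) * a t ≤ b t / a t * a t :=
                mul_le_mul_of_nonneg_right (min_le_right _ _) h0.le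
            _ = b t := div_mul_cancel₀ _ h0.ne'
        · exact le_trans (mul_le_mul_of_nonneg_right (min_le_left _ _) (ha t)) (hcs t ht)
  obtain ⟨c, hc, hcs⟩ := h Finset.univ
  exact ⟨c, hc, fun t => hcs t (Finset.mem_univ t)⟩

/-- the block words -/
def wordJ (l r a b : S) (P ks : ℕ) (K' : Finset ℕ) : Option (Option (Option ↥K')) → List S
  | none => l :: List.replicate P a
  | some none => List.replicate P b ++ [r]
  | some (some none) => midW a b ks
  | some (some (some k)) => midW a b k

def kvJ (ks : ℕ) (K' : Finset ℕ) : Option ↥K' → ℕ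
  | none => ks
  | some k => k

lemma wordJ_mid (l r a b : S) (P ks : ℕ) (K' : Finset ℕ) (x : Option ↥K') :
    wordJ l r a b P ks K' (some (some x)) = midW a b (kvJ ks K' x) := by
  cases x <;> rfl

lemma wordJ_ne (l r a b : S) (P ks : ℕ) (K' : Finset ℕ) (j) : wordJ l r a b P ks K' j ≠ [] := by
  rcases j with _ | _ | _ | k <;> simp [wordJ, midW]

lemma flatten_mk (l r a b : S) (P ks : ℕ) (K' : Finset ℕ) {m : ℕ} (xs : Fin m → Option ↥K') :
    (BsK (wordJ l r a b P ks K') (mkK xs)).flatten
      = tapeW l r a b P (List.ofFn (fun i => kvJ ks K' (xs i))) := by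
  unfold BsK tapeW
  rw [List.ofFn_succ, List.ofFn_succ_last, mkK_zero, mkK_last]
  simp only [mkK_mid, wordJ_mid]
  rw [List.map_ofFn]
  simp only [List.flatten_cons, List.flatten_append, List.flatten_nil, List.append_nil, wordJ]
  rfl

lemma tape_first (d l r a b : S) (P : ℕ) (ks : List ℕ) : lf d (tapeW l r a b P ks) 0 = l := by
  simp [lf, tapeW]

lemma tape_last (d l r a b : S) (P : ℕ) (ks : List ℕ) :
    lf d (tapeW l r a b P ks) (((tapeW l r a b P ks).length : ℤ) - 1) = r := by
  have h : tapeW l r a b P ks = ((l :: List.replicate P a) ++ ((ks.map (midW a b)).flatten ++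
      List.replicate P b)) ++ [r] := by
    simp [tapeW]
  rw [h]
  set X := ((l :: List.replicate P a) ++ ((ks.map (midW a b)).flatten ++ List.replicate P b)) with hX
  unfold lf
  have h2 : ((((X ++ [r]).length : ℕ) : ℤ) - 1).toNat = X.length := by
    simp
  rw [h2, List.getD_append_right _ _ _ _ (le_refl _)]
  simp

theorem core (K : Kern Q S) (d : S) (q0 : Q) (l r a b : S)
    (hKl : ∀ q q', q ∉ K.acc → q ∉ K.rej → K.p q l q' Move.left = 0)
    (hKr : ∀ q q', q ∉ K.acc → q ∉ K.rej → K.p q r q' Move.right = 0)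
    (ε η : ℝ) (hε : 0 ≤ ε) (hεη : ε < η)
    (good : ∀ P ks, (∀ k ∈ ks, k + 1 ≤ P) → η < accp K d q0 (tapeW l r a b P ks))
    (bad : ∀ P ks, (∃ k ∈ ks, P < k + 1) → accp K d q0 (tapeW l r a b P ks) ≤ ε) : False := by
  classical
  obtain ⟨P, K', kst, γ, hne, hKP, hPk, hγ, hpos⟩ :=
    selection (fun k => vW K d (midW a b k))
  have hη0 : 0 < η := lt_of_le_of_lt hε hεη
  set v : Option (Option (Option ↥K')) → (Bool × Q → Option (Option (Bool × Q))) → ℝ :=
    fun j => vW K d (wordJ l r a b P kst K' j) with hv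
  have hvnn : ∀ j t, 0 ≤ v j t := fun j t => vW_nonneg K d _ t
  have hvstar : ∀ t, v (some (some none)) t = ∑ k : ↥K', γ k * v (some (some (some k))) t := by
    intro t
    have h1 := Finset.sum_coe_sort K' (fun k => γ k * vW K d (midW a b k) t)
    exact (hγ t).trans h1.symm
  -- comparison constant
  obtain ⟨κ0, hκ0, hκ⟩ := comparison (fun t => ∑ k : ↥K', v (some (some (some k))) t)
    (fun t => v (some (some none)) t) (fun t => Finset.sum_nonneg (fun k _ => hvnn _ t))
    (fun t => hvnn _ t) (fun t ht => by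
      have : ∃ k : ↥K', 0 < v (some (some (some k))) t := by
        by_contra hcon
        push Not at hcon
        have : ∑ k : ↥K', v (some (some (some k))) t ≤ 0 :=
          Finset.sum_nonpos (fun k _ => hcon k)
        linarith
      obtain ⟨k, hk⟩ := this
      exact hpos k k.2 t hk)
  -- theta
  obtain ⟨θ, hθ, hθγ⟩ : ∃ θ > 0, ∀ k : ↥K', 0 ≤ 1 + θ * γ k := by
    refine ⟨1 / (1 + ∑ k ∈ K', |γ k|), ?_, ?_⟩
    · have : 0 ≤ ∑ k ∈ K', |γ k| := Finset.sum_nonneg (fun k _ => abs_nonneg _)
      positivity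
    · intro k
      have h1 : |γ k| ≤ ∑ k ∈ K', |γ k| :=
        Finset.single_le_sum (f := fun k => |γ k|) (fun k _ => abs_nonneg _) k.2
      have h2 : 0 < 1 + ∑ k ∈ K', |γ k| := by linarith [abs_nonneg (γ k)]
      have h3 : 1 / (1 + ∑ k ∈ K', |γ k|) * |γ k| ≤ 1 := by
        rw [div_mul_eq_mul_div, one_mul, div_le_one h2]
        linarith
      have h4 : -|γ k| ≤ γ k := neg_abs_le _
      have h5 : 0 < 1 / (1 + ∑ k ∈ K', |γ k|) := by positivity
      nlinarith
  -- number of blocks
  have hρ : 0 < 1 - ε / η := by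
    rw [sub_pos, div_lt_one hη0]; exact hεη
  obtain ⟨m, hm⟩ := pow_unbounded_of_one_lt (1 / (1 - ε / η))
    (by nlinarith [mul_pos hθ hκ0] : (1 : ℝ) < 1 + θ * κ0)
  -- delta
  have hδ : ∀ᶠ δ in nhdsWithin (0 : ℝ) (Set.Ioi 0), ∀ xs : Fin m → Option ↥K',
      (∀ i, xs i ≠ none) → ∃ t, η ≤ (1 - δ) ^ (t + 1) *
        E K (tapeW l r a b P (List.ofFn (fun i => kvJ kst K' (xs i)))).length
          (lf d (tapeW l r a b P (List.ofFn (fun i => kvJ kst K' (xs i))))) t 0 q0 none := by
    rw [Filter.eventually_all]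
    intro xs
    by_cases hxs : ∀ i, xs i ≠ none
    · have hg := good P (List.ofFn (fun i => kvJ kst K' (xs i))) (by
        intro k hk
        rw [List.mem_ofFn] at hk
        obtain ⟨i, rfl⟩ := hk
        rcases hx : xs i with _ | x
        · exact absurd hx (hxs i)
        · have := hKP x x.2
          simp only [kvJ]
          omega)
      obtain ⟨t, ht⟩ := exists_lt_of_lt_ciSup hg
      have hcont : Filter.Tendsto (fun δ : ℝ => (1 - δ) ^ (t + 1) *
        E K (tapeW l r a b P (List.ofFn (fun i => kvJ kst K' (xs i)))).length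
          (lf d (tapeW l r a b P (List.ofFn (fun i => kvJ kst K' (xs i))))) t 0 q0 none)
          (nhdsWithin (0 : ℝ) (Set.Ioi 0)) (nhds ((1 - 0) ^ (t + 1) *
        E K (tapeW l r a b P (List.ofFn (fun i => kvJ kst K' (xs i)))).length
          (lf d (tapeW l r a b P (List.ofFn (fun i => kvJ kst K' (xs i))))) t 0 q0 none)) := by
        apply Filter.Tendsto.mono_left _ nhdsWithin_le_nhds
        apply Continuous.tendsto
        fun_prop
      rw [sub_zero, one_pow, one_mul] at hcont
      filter_upwards [hcont.eventually (lt_mem_nhds ht)] with δ h1 _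
      exact ⟨t, h1.le⟩
    · filter_upwards with δ h1
      exact absurd h1 hxs
  have hδ1 : ∀ᶠ δ in nhdsWithin (0 : ℝ) (Set.Ioi 0), δ ∈ Set.Ioo (0 : ℝ) 1 :=
    Ioo_mem_nhdsGT one_pos
  obtain ⟨δ, hδa, hδ0, hδ1⟩ := (hδ.and hδ1).exists
  have hB : 0 < m + 2 := by omega
  -- bounds for the sequences of blocks
  set f : (Fin (m + 2) → Option (Option (Option ↥K'))) → ℝ := fun κ =>
    Fm (rho (m + 2) δ) (alp (m + 2) δ) (⟨0, hB⟩, (false, q0))
      (piK K d (wordJ l r a b P kst K') κ) with hf
  set D : (Fin (m + 2) → Option (Option (Option ↥K'))) → ℝ := fun κ =>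
    Dm (rho (m + 2) δ) (piK K d (wordJ l r a b P kst K') κ) with hD
  have hb : ∀ xs : Fin m → Option ↥K', 0 < D (mkK xs) ∧
      (∀ t, D (mkK xs) * ((1 - δ) ^ (t + 1) *
        E K (tapeW l r a b P (List.ofFn (fun i => kvJ kst K' (xs i)))).length
          (lf d (tapeW l r a b P (List.ofFn (fun i => kvJ kst K' (xs i))))) t 0 q0 none)
        ≤ f (mkK xs)) ∧
      f (mkK xs) ≤ D (mkK xs) * accp K d q0
        (tapeW l r a b P (List.ofFn (fun i => kvJ kst K' (xs i)))) := by
    intro xs
    have h := word_bounds K d q0 (wordJ l r a b P kst K') hB δ hδ0 hδ1 (mkK xs)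
      (wordJ_ne l r a b P kst K')
      (by rw [flatten_mk, tape_first]; exact hKl)
      (by rw [flatten_mk, tape_last]; exact hKr)
    rw [flatten_mk] at h
    exact h
  have hgood : ∀ xs : Fin m → Option ↥K', (∀ i, xs i ≠ none) → η * D (mkK xs) ≤ f (mkK xs) := by
    intro xs hxs
    obtain ⟨h1, h2, -⟩ := hb xs
    obtain ⟨t, ht⟩ := hδa xs hxs
    have := h2 t
    nlinarith [mul_le_mul_of_nonneg_left ht h1.le]
  have hbad : ∀ xs : Fin m → Option ↥K', (∃ i, xs i = none) → f (mkK xs) ≤ ε * D (mkK xs) := by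
    intro xs hxs
    obtain ⟨i, hi⟩ := hxs
    obtain ⟨h1, -, h2⟩ := hb xs
    have h3 := bad P (List.ofFn (fun i => kvJ kst K' (xs i))) ⟨kst, by
      rw [List.mem_ofFn]
      exact ⟨i, by rw [hi]; rfl⟩, by omega⟩
    nlinarith [mul_le_mul_of_nonneg_left h3 h1.le]
  -- weights
  set e1 : Option ↥K' → ℝ := fun x => match x with | none => 0 | some _ => 1 with he1
  set e2 : Option ↥K' → ℝ := fun x => match x with | none => θ | some _ => 1 with he2
  set e3 : Option ↥K' → ℝ := fun x => match x with | none => 0 | some k => 1 + θ * γ k with he3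
  have he10 : ∀ x, 0 ≤ e1 x := by intro x; cases x <;> simp [he1]
  have he12 : ∀ x, e1 x ≤ e2 x := by intro x; cases x <;> simp [he1, he2, hθ.le]
  have he30 : ∀ x, 0 ≤ e3 x := by
    intro x
    rcases x with _ | k
    · simp [he3]
    · simpa [he3] using hθγ k
  have hprod1 : ∀ xs : Fin m → Option ↥K', ∏ i, e1 (xs i) ≠ 0 → ∀ i, xs i ≠ none := by
    intro xs h i hi
    apply h
    apply Finset.prod_eq_zero (Finset.mem_univ i)
    rw [hi]
  have hprod3 : ∀ xs : Fin m → Option ↥K', ∏ i, e3 (xs i) ≠ 0 → ∀ i, xs i ≠ none := by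
    intro xs h i hi
    apply h
    apply Finset.prod_eq_zero (Finset.mem_univ i)
    rw [hi]
  have heng := engine v (phiF q0 (m + 2) hB δ) (phiD (m + 2) δ)
    (phiF_nonneg q0 (m + 2) hB δ hδ0 hδ1) f D
    (fun κ => F_expand K d q0 (wordJ l r a b P kst K') hB δ κ)
    (fun κ => D_expand K d (wordJ l r a b P kst K') δ κ)
    hvnn (wt e1) (wt e2) (wt e3)
    (by
      intro i t
      rw [wt_sum e2 i (fun j => v j t), wt_sum e3 i (fun j => v j t)]
      split_ifs
      · rfl
      · rfl
      · rw [Fintype.sum_option, Fintype.sum_option]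
        simp only [he2, he3]
        rw [hvstar t, zero_mul, zero_add, Finset.mul_sum, ← Finset.sum_add_distrib]
        refine Finset.sum_congr rfl (fun k _ => ?_)
        ring)
    (wt_nonneg e1 he10) (wt_mono e1 e2 he12) (wt_nonneg e3 he30)
    (fun i => if (i : ℕ) = 0 ∨ (i : ℕ) = m + 1 then 1 else 1 + θ * κ0)
    (by
      intro i
      have : 0 < θ * κ0 := mul_pos hθ hκ0
      split_ifs <;> linarith)
    (by
      intro i t
      rw [wt_sum e1 i (fun j => v j t), wt_sum e2 i (fun j => v j t)]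
      by_cases h0 : (i : ℕ) = 0
      · simp [h0]
      by_cases h1 : (i : ℕ) = m + 1
      · simp [h1]
      · rw [if_neg h0, if_neg h1, if_neg h0, if_neg h1, if_neg (by tauto)]
        rw [Fintype.sum_option, Fintype.sum_option]
        simp only [he1, he2, one_mul, zero_mul, zero_add]
        have := hκ t
        nlinarith)
    ε η hε hεη
    (by
      intro κ hκne
      obtain ⟨xs, rfl⟩ := wt_support e3 κ hκne
      rw [wt_prod_mk] at hκne
      exact hgood xs (hprod3 xs hκne))
    (by
      intro κ hκne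
      have : ∃ xs : Fin m → Option ↥K', κ = mkK xs := by
        by_cases h1 : ∏ i, wt e1 i (κ i) = 0
        · by_cases h2 : ∏ i, wt e2 i (κ i) = 0
          · exact absurd (h1.trans h2.symm) hκne
          · exact wt_support e2 κ h2
        · exact wt_support e1 κ h1
      obtain ⟨xs, rfl⟩ := this
      rw [wt_prod_mk, wt_prod_mk] at hκne
      apply hbad xs
      by_contra hcon
      push Not at hcon
      apply hκne
      refine Finset.prod_congr rfl (fun i _ => ?_)
      rcases hx : xs i with _ | k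
      · exact absurd hx (hcon i)
      · simp [he1, he2])
    (by
      intro κ hκne
      obtain ⟨xs, rfl⟩ := wt_support e1 κ hκne
      exact (hb xs).1.le)
    (by
      obtain ⟨k1, hk1⟩ := hne
      have hterm : ∀ κ : Fin (m + 2) → Option (Option (Option ↥K')),
          0 ≤ (∏ i, wt e1 i (κ i)) * f κ := by
        intro κ
        by_cases h0 : ∏ i, wt e1 i (κ i) = 0
        · rw [h0, zero_mul]
        · have hnn : 0 ≤ ∏ i, wt e1 i (κ i) := Finset.prod_nonneg (fun i _ => wt_nonneg e1 he10 i _)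
          obtain ⟨xs, rfl⟩ := wt_support e1 κ h0
          rw [wt_prod_mk] at h0
          have h3 := hgood xs (hprod1 xs h0)
          have h4 := (hb xs).1
          exact mul_nonneg hnn (by nlinarith [mul_pos hη0 h4])
      refine Finset.sum_pos' (fun κ _ => hterm κ) ⟨mkK (fun _ => some ⟨k1, hk1⟩),
        Finset.mem_univ _, ?_⟩
      rw [wt_prod_mk]
      have h3 := hgood (fun _ => some ⟨k1, hk1⟩) (fun _ => by simp)
      have h4 := (hb (fun _ => some ⟨k1, hk1⟩)).1
      simp only [he1, Finset.prod_const_one, one_mul]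
      nlinarith [mul_pos hη0 h4])
  -- the product of the growth factors
  have hlam : ∏ i : Fin (m + 2), (if (i : ℕ) = 0 ∨ (i : ℕ) = m + 1 then (1 : ℝ) else 1 + θ * κ0)
      = (1 + θ * κ0) ^ m := by
    rw [Fin.prod_univ_succ, Fin.prod_univ_castSucc]
    have : ∀ i : Fin m, (if ((i.castSucc.succ : Fin (m + 2)) : ℕ) = 0 ∨
        ((i.castSucc.succ : Fin (m + 2)) : ℕ) = m + 1 then (1 : ℝ) else 1 + θ * κ0)
        = 1 + θ * κ0 := by
      intro i
      have h := i.2
      have h3 : ¬ (i : ℕ) = m := by omega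
      simp [h3]
    rw [Finset.prod_congr rfl (fun i _ => this i)]
    simp
  rw [hlam] at heng
  rw [div_lt_iff₀ hρ] at hm
  linarith

end Core2

/-! ### the clamped kernel -/

/-- the kernel in which moves off the tape are replaced by staying -/
noncomputable def TwoPFA.ker (M : TwoPFA) : Kern M.Q TapeSym where
  acc := M.acc
  rej := M.rej
  p q s q' m := match s, m with
    | .leftEnd, .left => 0
    | .leftEnd, .stay => M.prob q .leftEnd q' .left + M.prob q .leftEnd q' .stay
    | .leftEnd, .right => M.prob q .leftEnd q' .right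
    | .rightEnd, .left => M.prob q .rightEnd q' .left
    | .rightEnd, .stay => M.prob q .rightEnd q' .stay + M.prob q .rightEnd q' .right
    | .rightEnd, .right => 0
    | .letter a, m => M.prob q (.letter a) q' m
  nonneg q s q' m := by
    have h := fun s m => M.nonneg q s q' m
    cases s <;> cases m <;> simp only [le_refl, h]
    · exact add_nonneg (h _ _) (h _ _)
    · exact add_nonneg (h _ _) (h _ _)
  sum_one q s hq hr := by
    rw [← M.sum_eq_one q s hq hr]
    refine Finset.sum_congr rfl (fun q' _ => ?_)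
    have hsum : ∀ g : Move → ℝ, ∑ m, g m = g .left + g .stay + g .right := by
      intro g
      show ∑ m ∈ ({Move.left, Move.stay, Move.right} : Finset Move), g m = _
      rw [Finset.sum_insert (by simp), Finset.sum_insert (by simp), Finset.sum_singleton]
      ring
    rw [hsum, hsum]
    cases s <;> simp only <;> ring

lemma sum_move (g : Move → ℝ) : ∑ m, g m = g .left + g .stay + g .right := by
  show ∑ m ∈ ({Move.left, Move.stay, Move.right} : Finset Move), g m = _
  rw [Finset.sum_insert (by simp), Finset.sum_insert (by simp), Finset.sum_singleton]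
  ring

/-- tape as a list -/
def tape (w : List Paren) : List TapeSym :=
  TapeSym.leftEnd :: (w.map TapeSym.letter ++ [TapeSym.rightEnd])

lemma tape_length (w : List Paren) : (tape w).length = w.length + 2 := by
  simp [tape]

lemma tape_cell (w : List Paren) (i : Fin (w.length + 2)) :
    lf TapeSym.leftEnd (tape w) ((i : ℕ) : ℤ) = cell w i := by
  unfold lf cell tape
  rw [Int.toNat_natCast]
  obtain ⟨i, hi⟩ := i
  cases i with
  | zero => simp
  | succ i =>
    simp only [Nat.add_eq_zero_iff, one_ne_zero, and_false, if_false, Nat.add_sub_cancel]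
    rw [List.getD_cons_succ]
    rcases Nat.lt_or_ge i w.length with h | h
    · rw [List.getD_append _ _ _ _ (by simpa using h)]
      simp [List.getD_eq_getElem?_getD, h]
    · have : i = w.length := by omega
      subst this
      rw [List.getD_append_right _ _ _ _ (by simp)]
      simp

open Classical in
/-- acceptance within `t` steps from a configuration -/
noncomputable def TwoPFA.av (M : TwoPFA) (w : List Paren) (t : ℕ)
    (c : Fin (w.length + 2) × M.Q) : ℝ :=
  ∑ c' : Fin (w.length + 2) × M.Q, if c'.2 ∈ M.acc then (M.stepMatrix w ^ t) c c' else 0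

lemma av_zero (M : TwoPFA) (w : List Paren) (c : Fin (w.length + 2) × M.Q) [Decidable (c.2 ∈ M.acc)] :
    M.av w 0 c = if c.2 ∈ M.acc then 1 else 0 := by
  classical
  unfold TwoPFA.av
  rw [pow_zero]
  rw [Finset.sum_eq_single c]
  · simp
  · intro c' _ hne
    rw [Matrix.one_apply_ne (Ne.symm hne)]
    simp
  · intro h; exact absurd (Finset.mem_univ _) h

lemma av_succ (M : TwoPFA) (w : List Paren) (t : ℕ) (c : Fin (w.length + 2) × M.Q) :
    M.av w (t + 1) c = ∑ c'', M.stepMatrix w c c'' * M.av w t c'' := by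
  classical
  unfold TwoPFA.av
  simp only [Finset.mul_sum]
  rw [Finset.sum_comm]
  refine Finset.sum_congr rfl (fun c' _ => ?_)
  split_ifs with h
  · rw [pow_succ', Matrix.mul_apply]
  · simp

lemma av_halt (M : TwoPFA) (w : List Paren) (t : ℕ) (c : Fin (w.length + 2) × M.Q)
    (h : c.2 ∈ M.acc ∨ c.2 ∈ M.rej) : M.av w (t + 1) c = M.av w t c := by
  classical
  rw [av_succ]
  unfold TwoPFA.stepMatrix
  simp [h]

lemma av_step (M : TwoPFA) (w : List Paren) (t : ℕ) (c : Fin (w.length + 2) × M.Q)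
    (h : ¬ (c.2 ∈ M.acc ∨ c.2 ∈ M.rej)) : M.av w (t + 1) c
      = ∑ q', ∑ m, M.prob c.2 (cell w c.1) q' m * M.av w t (moveHead c.1 m, q') := by
  classical
  rw [av_succ]
  unfold TwoPFA.stepMatrix
  simp only [h, if_false]
  rw [Fintype.sum_prod_type, Finset.sum_comm]
  refine Finset.sum_congr rfl (fun q' _ => ?_)
  simp only [Finset.sum_mul]
  rw [Finset.sum_comm]
  refine Finset.sum_congr rfl (fun m _ => ?_)
  rw [Finset.sum_eq_single (moveHead c.1 m)]
  · simp
  · intro i _ hne
    rw [if_neg (Ne.symm hne), zero_mul]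
  · intro h; exact absurd (Finset.mem_univ _) h

lemma av_eq (M : TwoPFA) (w : List Paren) (t : ℕ) : ∀ (c : Fin (w.length + 2) × M.Q),
    M.av w t c = E M.ker (tape w).length (lf TapeSym.leftEnd (tape w)) t ((c.1 : ℕ) : ℤ) c.2 none := by
  classical
  have hlen := tape_length w
  induction t with
  | zero =>
    intro c
    have hc := c.1.2
    rw [av_zero]
    by_cases hq : c.2 ∈ M.acc
    · rw [E_acc M.ker _ _ _ _ (by omega) (by rw [hlen]; exact_mod_cast hc) c.2 hq]
      simp [hq]
    · rw [E_zero M.ker _ _ _ (by omega) (by rw [hlen]; exact_mod_cast hc) c.2 hq]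
      simp [hq]
  | succ t ih =>
    intro c
    have hc := c.1.2
    by_cases hq : c.2 ∈ M.acc
    · rw [av_halt M w t c (Or.inl hq), ih c,
        E_acc M.ker _ _ _ _ (by omega) (by rw [hlen]; exact_mod_cast hc) c.2 hq,
        E_acc M.ker _ _ _ _ (by omega) (by rw [hlen]; exact_mod_cast hc) c.2 hq]
    by_cases hr : c.2 ∈ M.rej
    · rw [av_halt M w t c (Or.inr hr), ih c,
        E_rej M.ker _ _ _ _ (by omega) (by rw [hlen]; exact_mod_cast hc) c.2 hq hr,
        E_rej M.ker _ _ _ _ (by omega) (by rw [hlen]; exact_mod_cast hc) c.2 hq hr]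
    rw [av_step M w t c (by tauto),
      E_succ M.ker _ _ _ _ (by omega) (by rw [hlen]; exact_mod_cast hc) c.2 hq hr]
    refine Finset.sum_congr rfl (fun q' _ => ?_)
    rw [tape_cell w c.1]
    simp only [ih]
    rw [sum_move, sum_move]
    simp only [moveHead, Move.shift]
    obtain ⟨⟨i, hi⟩, q⟩ := c
    simp only at hi hc hq hr ⊢
    rcases Nat.eq_zero_or_pos i with h0 | h0
    · subst h0
      have hcell : cell w ⟨0, hi⟩ = TapeSym.leftEnd := by simp [cell]
      rw [hcell]
      simp only [TwoPFA.ker]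
      have e1 : ((min (0 + 1) (w.length + 1) : ℕ) : ℤ) = ((0 : ℕ) : ℤ) + 1 := by simp
      rw [e1]
      simp
      ring
    · rcases Nat.lt_or_ge i (w.length + 1) with h1 | h1
      · have hcell : ∃ a, cell w ⟨i, hi⟩ = TapeSym.letter a := by
          refine ⟨w[i - 1]'(by omega), ?_⟩
          unfold cell
          rw [if_neg (by simp only; omega)]
          have : w[i - 1]? = some (w[i - 1]'(by omega)) := List.getElem?_eq_getElem (by omega)
          simp only [this]
        obtain ⟨a, ha⟩ := hcell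
        rw [ha]
        simp only [TwoPFA.ker]
        have e1 : ((min (i + 1) (w.length + 1) : ℕ) : ℤ) = (i : ℤ) + 1 := by
          rw [min_eq_left (by omega)]; push_cast; ring
        have e2 : ((i - 1 : ℕ) : ℤ) = (i : ℤ) + -1 := by omega
        rw [e1, e2, add_zero]
      · have hi' : i = w.length + 1 := by omega
        have hcell : cell w ⟨i, hi⟩ = TapeSym.rightEnd := by
          unfold cell
          rw [if_neg (by simp only; omega)]
          have : w[i - 1]? = none := List.getElem?_eq_none (by omega)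
          simp only [this]
        rw [hcell]
        simp only [TwoPFA.ker]
        have e1 : ((min (i + 1) (w.length + 1) : ℕ) : ℤ) = (i : ℤ) := by
          rw [min_eq_right (by omega)]; omega
        have e2 : ((i - 1 : ℕ) : ℤ) = (i : ℤ) + -1 := by omega
        rw [e1, e2, add_zero]
        ring

lemma accWithin_eq (M : TwoPFA) (w : List Paren) (t : ℕ) : M.accWithin w t
    = E M.ker (tape w).length (lf TapeSym.leftEnd (tape w)) t 0 M.start none := by
  have := av_eq M w t (0, M.start)
  simp only [Fin.val_zero, Nat.cast_zero] at this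
  exact this

lemma accProb_eq (M : TwoPFA) (w : List Paren) :
    M.accProb w = accp M.ker TapeSym.leftEnd M.start (tape w) := by
  unfold TwoPFA.accProb accp Sx
  simp only [accWithin_eq]

/-- the acceptance probability is the limit of the probabilities `accWithin` -/
lemma accProb_tendsto (M : TwoPFA) (w : List Paren) :
    Filter.Tendsto (fun t => M.accWithin w t) Filter.atTop (nhds (M.accProb w)) := by
  rw [accProb_eq]
  simp only [accWithin_eq]
  exact Sx_tendsto _ _ _ _ _ _

/-- middle part of the words -/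
def mids (ks : List ℕ) : List Paren := (ks.map (midW Paren.op Paren.cl)).flatten

/-- the words `[^P ]^{k₁+1} [^{k₁+1} ⋯ ]^{kₘ+1} [^{kₘ+1} ]^P` -/
def wOf (P : ℕ) (ks : List ℕ) : List Paren :=
  List.replicate P Paren.op ++ (mids ks ++ List.replicate P Paren.cl)

lemma tape_wOf (P : ℕ) (ks : List ℕ) :
    tapeW TapeSym.leftEnd TapeSym.rightEnd (TapeSym.letter Paren.op) (TapeSym.letter Paren.cl) P ks
      = tape (wOf P ks) := by
  unfold tapeW tape wOf mids
  simp only [List.map_append, List.map_replicate, List.map_flatten, List.map_map,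
    List.cons_append, List.append_assoc]
  congr 3
  congr 1
  congr 1
  funext k
  simp [midW]

lemma mids_count (ks : List ℕ) : (mids ks).count Paren.op = (mids ks).count Paren.cl := by
  induction ks with
  | nil => simp [mids]
  | cons k ks ih =>
    have h : mids (k :: ks) = midW Paren.op Paren.cl k ++ mids ks := by simp [mids]
    rw [h, List.count_append, List.count_append, ih]
    simp [midW, List.count_replicate]

/-- heights stay nonnegative when started at height `h` -/
def G (h : ℕ) (w : List Paren) : Prop :=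
  ∀ u : List Paren, u <+: w → u.count Paren.cl ≤ h + u.count Paren.op

lemma G_nil (h : ℕ) : G h [] := by
  intro u hu
  rw [List.prefix_nil.mp hu]
  simp

lemma G_op (h : ℕ) (w : List Paren) (hw : G (h + 1) w) : G h (Paren.op :: w) := by
  intro u hu
  rcases u with _ | ⟨x, u⟩
  · simp
  · rw [List.cons_prefix_cons] at hu
    obtain ⟨rfl, hu⟩ := hu
    have := hw u hu
    simp only [List.count_cons]
    simp
    omega

lemma G_cl (h : ℕ) (w : List Paren) (hw : G h w) : G (h + 1) (Paren.cl :: w) := by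
  intro u hu
  rcases u with _ | ⟨x, u⟩
  · simp
  · rw [List.cons_prefix_cons] at hu
    obtain ⟨rfl, hu⟩ := hu
    have := hw u hu
    simp only [List.count_cons]
    simp
    omega

lemma G_ops (n h : ℕ) (w : List Paren) (hw : G (h + n) w) :
    G h (List.replicate n Paren.op ++ w) := by
  induction n generalizing h with
  | zero => simpa using hw
  | succ n ih =>
    rw [List.replicate_succ, List.cons_append]
    exact G_op h _ (ih (h + 1) (by rw [show h + 1 + n = h + (n + 1) by ring]; exact hw))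

lemma G_cls (n h : ℕ) (w : List Paren) (hw : G h w) :
    G (h + n) (List.replicate n Paren.cl ++ w) := by
  induction n with
  | zero => simpa using hw
  | succ n ih =>
    rw [List.replicate_succ, List.cons_append]
    exact G_cl (h + n) _ ih

lemma G_mids (P : ℕ) (ks : List ℕ) (hks : ∀ k ∈ ks, k + 1 ≤ P) (w : List Paren) (hw : G P w) :
    G P (mids ks ++ w) := by
  induction ks with
  | nil => simpa [mids] using hw
  | cons k ks ih =>
    have h : mids (k :: ks) ++ w = List.replicate (k + 1) Paren.cl ++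
        (List.replicate (k + 1) Paren.op ++ (mids ks ++ w)) := by
      simp [mids, midW]
    rw [h]
    have hk : k + 1 ≤ P := hks k (by simp)
    have h1 : P = (P - (k + 1)) + (k + 1) := by omega
    have h2 := ih (fun k hk => hks k (by simp [hk]))
    rw [h1] at h2 ⊢
    refine G_cls (k + 1) (P - (k + 1)) _ (G_ops (k + 1) (P - (k + 1)) _ ?_)
    rw [← h1] at h2 ⊢
    exact h2

lemma balanced_wOf (P : ℕ) (ks : List ℕ) (hks : ∀ k ∈ ks, k + 1 ≤ P) : Balanced (wOf P ks) := by
  constructor
  · unfold wOf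
    simp only [List.count_append, mids_count]
    simp [List.count_replicate]
    omega
  · have h : G 0 (wOf P ks) := by
      refine G_ops P 0 _ ?_
      rw [Nat.zero_add]
      refine G_mids P ks hks _ ?_
      have := G_cls P 0 [] (G_nil 0)
      simpa using this
    intro u hu
    have := h u hu
    omega

lemma not_balanced_wOf (P : ℕ) (ks : List ℕ) (hks : ∃ k ∈ ks, P < k + 1) :
    ¬ Balanced (wOf P ks) := by
  rintro ⟨-, h⟩
  obtain ⟨k, hk, hPk⟩ := hks
  obtain ⟨s, t, rfl⟩ := List.append_of_mem hk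
  have h1 := h (List.replicate P Paren.op ++ (mids s ++ List.replicate (k + 1) Paren.cl)) (by
    refine ⟨List.replicate (k + 1) Paren.op ++ (mids t ++ List.replicate P Paren.cl), ?_⟩
    simp [wOf, mids, midW])
  simp only [List.count_append, mids_count] at h1
  simp [List.count_replicate] at h1
  omega

/-- **No two-way probabilistic finite automaton accepts the language of balanced parenthesis
strings with bounded error.** -/
theorem result : ¬ ∃ M : TwoPFA, M.AcceptsBoundedError LBal := by
  rintro ⟨M, ε, hε, hM⟩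
  have hM1 : ∀ w, Balanced w → 1 - ε ≤ M.accProb w := fun w hw => (hM w).1 hw
  have hM2 : ∀ w, ¬ Balanced w → M.accProb w ≤ ε := fun w hw => (hM w).2 hw
  have h0 : 0 ≤ ε := by
    have h1 := hM2 (wOf 0 [0]) (not_balanced_wOf 0 [0] ⟨0, by simp, by norm_num⟩)
    rw [accProb_eq] at h1
    exact le_trans (Sx_nonneg _ _ _ _ _ _) h1
  refine core M.ker TapeSym.leftEnd M.start TapeSym.leftEnd TapeSym.rightEnd
    (TapeSym.letter Paren.op) (TapeSym.letter Paren.cl) (fun q q' _ _ => rfl) (fun q q' _ _ => rfl)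
    ε (1 / 2) h0 hε ?_ ?_
  · intro P ks hks
    rw [tape_wOf, ← accProb_eq]
    have := hM1 _ (balanced_wOf P ks hks)
    linarith
  · intro P ks hks
    rw [tape_wOf, ← accProb_eq]
    exact hM2 _ (not_balanced_wOf P ks hks)

end Pool.Agent.Results.MP_44310b_lc.BalNotTwoPFA
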